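import Mathlib

set_option autoImplicit false
set_option maxHeartbeats 4000000
open Matrix

namespace Q298.Sv

variable {n : ℕ}

/-- A nonnegative character of the multiplicative monoid of matrices is a power of `|det|`
on invertible matrices. -/
theorem char_pow (χ : Matrix (Fin n) (Fin n) ℝ →* ℝ) (h0 : ∀ M, 0 ≤ χ M) (m : ℕ)
    (hs : ∀ c : ℝ, c ≠ 0 → χ (c • (1 : Matrix (Fin n) (Fin n) ℝ)) = |c| ^ m)
    (S : Matrix (Fin n) (Fin n) ℝ) (hS : S.det ≠ 0) : χ S ^ n = |S.det| ^ m := by
  -- transvections
  have htr : ∀ t : TransvectionStruct (Fin n) ℝ, χ t.toMatrix = 1 := by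
    rintro ⟨i, j, hij, c⟩
    simp only [TransvectionStruct.toMatrix]
    have hD : χ (diagonal (Function.update (1 : Fin n → ℝ) i 2)) *
        χ (diagonal (Function.update (1 : Fin n → ℝ) i (1 / 2))) = 1 := by
      rw [← map_mul, diagonal_mul_diagonal]
      have : (fun k => Function.update (1 : Fin n → ℝ) i 2 k * Function.update (1 : Fin n → ℝ) i (1 / 2) k) = fun _ => 1 := by
        funext k
        by_cases hk : k = i
        · subst hk; simp
        · simp [hk]
      rw [this]
      exact map_one χ
    have hconj : diagonal (Function.update (1 : Fin n → ℝ) i 2) * transvection i j c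
        * diagonal (Function.update (1 : Fin n → ℝ) i (1 / 2)) = transvection i j (c + c) := by
      ext a b
      rw [mul_diagonal, diagonal_mul]
      simp only [transvection, Matrix.add_apply, Matrix.one_apply, Matrix.single_apply]
      by_cases ha : a = i
      · subst ha
        by_cases hb : b = j
        · subst hb
          have : ¬ b = a := fun h => hij h.symm
          simp [this, hij]
          ring
        · by_cases hab : a = b
          · subst hab
            have : ¬ j = a := fun h => hij h.symm
            simp [this]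
          · have h2 : ¬ j = b := fun h => hb h.symm
            simp [hab, h2]
      · by_cases hab : a = b
        · subst hab
          have : ¬ i = a := fun h => ha h.symm
          simp [ha, this]
        · have : ¬ i = a := fun h => ha h.symm
          simp [hab, this]
    have h1 : χ (transvection i j (c + c)) = χ (transvection i j c) := by
      rw [← hconj, map_mul, map_mul]
      calc _ = (χ (diagonal (Function.update (1 : Fin n → ℝ) i 2)) *
        χ (diagonal (Function.update (1 : Fin n → ℝ) i (1 / 2)))) * χ (transvection i j c) := by ring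
        _ = _ := by rw [hD, one_mul]
    have h2 : χ (transvection i j (c + c)) = χ (transvection i j c) * χ (transvection i j c) := by
      rw [← map_mul, transvection_mul_transvection_same i j hij]
    have h3 : χ (transvection i j c) * χ (transvection i j (-c)) = 1 := by
      rw [← map_mul, transvection_mul_transvection_same i j hij, add_neg_cancel, transvection_zero, map_one]
    have h4 : χ (transvection i j c) ≠ 0 := fun h => by rw [h, zero_mul] at h3; exact one_ne_zero h3.symm
    rw [h1] at h2
    exact (mul_left_cancel₀ h4 (by rw [mul_one]; exact h2)).symm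
  -- permutations
  have hperm : ∀ (σ : Equiv.Perm (Fin n)) (d : Fin n → ℝ), χ (diagonal (d ∘ σ)) = χ (diagonal d) := by
    intro σ d
    have e1 : σ.permMatrix ℝ * diagonal d = diagonal (d ∘ σ) * σ.permMatrix ℝ := by
      ext a b
      rw [mul_diagonal, diagonal_mul]
      simp only [Equiv.Perm.permMatrix, PEquiv.toMatrix_apply, Equiv.toPEquiv_apply, Option.mem_def,
        Option.some.injEq, Function.comp]
      by_cases h : σ a = b
      · simp [h]
      · simp [h]
    have e2 := congrArg χ e1
    rw [map_mul, map_mul, mul_comm] at e2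
    have e3 : χ (σ.permMatrix ℝ) * χ ((σ⁻¹).permMatrix ℝ) = 1 := by
      rw [← map_mul]
      have : σ.permMatrix ℝ * (σ⁻¹).permMatrix ℝ = 1 := by
        rw [← Matrix.permMatrix_mul]
        simp
      rw [this, map_one]
    have e4 : χ (σ.permMatrix ℝ) ≠ 0 := fun h => by rw [h, zero_mul] at e3; exact one_ne_zero e3.symm
    exact (mul_right_cancel₀ e4 e2).symm
  have hdiagmul : ∀ d e : Fin n → ℝ, χ (diagonal (d * e)) = χ (diagonal d) * χ (diagonal e) := by
    intro d e
    rw [← map_mul, diagonal_mul_diagonal]
    rfl
  let φ : (Fin n → ℝ) →* ℝ :=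
    { toFun := fun d => χ (diagonal d)
      map_one' := by
        have : diagonal (1 : Fin n → ℝ) = 1 := diagonal_one
        rw [this, map_one]
      map_mul' := hdiagmul }
  have hφ : ∀ d : Fin n → ℝ, χ (diagonal d) = ∏ i, χ (diagonal (Pi.mulSingle i (d i))) := by
    intro d
    have h1 : χ (diagonal d) = φ d := rfl
    have h2 : d = ∏ i, Pi.mulSingle i (d i) := (Finset.univ_prod_mulSingle d).symm
    rw [h1]
    conv_lhs => rw [h2]
    rw [map_prod]
    rfl
  have hswap : ∀ (i j : Fin n) (c : ℝ), χ (diagonal (Pi.mulSingle i c)) = χ (diagonal (Pi.mulSingle j c)) := by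
    intro i j c
    rw [← hperm (Equiv.swap i j) (Pi.mulSingle i c)]
    congr 2
    funext k
    simp only [Function.comp]
    by_cases hk : k = j
    · subst hk; simp
    · by_cases hk2 : k = i
      · subst hk2
        rw [Equiv.swap_apply_left, Pi.mulSingle_eq_of_ne hk]
        rw [Pi.mulSingle_eq_of_ne (fun h => hk h.symm)]
      · rw [Equiv.swap_apply_of_ne_of_ne hk2 hk, Pi.mulSingle_eq_of_ne hk2, Pi.mulSingle_eq_of_ne hk]
  have hkap : ∀ (i : Fin n) (c : ℝ), c ≠ 0 → χ (diagonal (Pi.mulSingle i c)) ^ n = |c| ^ m := by
    intro i c hc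
    have h1 : χ (diagonal (fun _ : Fin n => c)) = χ (diagonal (Pi.mulSingle i c)) ^ n := by
      rw [hφ]
      have : ∀ j ∈ Finset.univ, χ (diagonal (Pi.mulSingle j ((fun _ : Fin n => c) j))) = χ (diagonal (Pi.mulSingle i c)) :=
        fun j _ => hswap j i c
      rw [Finset.prod_congr rfl this, Finset.prod_const, Finset.card_univ, Fintype.card_fin]
    rw [← h1, ← hs c hc]
    congr 1
    ext a b
    simp [diagonal_apply, Matrix.one_apply]
  apply diagonal_transvection_induction_of_det_ne_zero (fun S => χ S ^ n = |S.det| ^ m) S hS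
  · intro D hD
    rw [det_diagonal] at hD ⊢
    rw [hφ, ← Finset.prod_pow, Finset.abs_prod, ← Finset.prod_pow]
    apply Finset.prod_congr rfl
    intro i _
    exact hkap i (D i) (fun h => hD (Finset.prod_eq_zero (Finset.mem_univ i) h))
  · intro t
    rw [htr t]
    simp
  · intro A B _ _ hA hB
    rw [map_mul, mul_pow, hA, hB, det_mul, abs_mul, mul_pow]

theorem char_eq (χ : Matrix (Fin n) (Fin n) ℝ →* ℝ) (h0 : ∀ M, 0 ≤ χ M) (q : ℕ) (hn : n ≠ 0)
    (hs : ∀ c : ℝ, c ≠ 0 → χ (c • (1 : Matrix (Fin n) (Fin n) ℝ)) = |c| ^ (n * q))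
    (S : Matrix (Fin n) (Fin n) ℝ) (hS : S.det ≠ 0) : χ S = |S.det| ^ q := by
  have h := char_pow χ h0 (n * q) hs S hS
  rw [mul_comm n q, pow_mul] at h
  exact (pow_left_inj₀ (h0 S) (by positivity) hn).1 h

end Q298.Sv
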