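import Mathlib
import Pool.Agent.Q298.Sv.Ch

set_option autoImplicit false
set_option maxHeartbeats 4000000
open Matrix MeasureTheory Set
open scoped ENNReal

namespace Q298.Sv

/-- symmetric matrices in coordinates -/
abbrev EE (n : ℕ) := Sym2 (Fin n) → ℝ
/-- square matrices in coordinates -/
abbrev MM (n : ℕ) := Fin n → Fin n → ℝ

variable {n : ℕ}

def toM (x : EE n) : Matrix (Fin n) (Fin n) ℝ := Matrix.of fun i j => x s(i, j)

noncomputable def ofM (M : Matrix (Fin n) (Fin n) ℝ) : EE n :=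
  Sym2.lift ⟨fun i j => (M i j + M j i) / 2, fun i j => by ring⟩

@[simp] theorem toM_apply (x : EE n) (i j : Fin n) : toM x i j = x s(i, j) := rfl
@[simp] theorem ofM_apply (M : Matrix (Fin n) (Fin n) ℝ) (i j : Fin n) : ofM M s(i, j) = (M i j + M j i) / 2 := rfl

theorem toM_symm (x : EE n) : (toM x)ᵀ = toM x := by
  ext i j
  simp [Sym2.eq_swap]

theorem toM_ofM (M : Matrix (Fin n) (Fin n) ℝ) (h : Mᵀ = M) : toM (ofM M) = M := by
  ext i j
  have : M j i = M i j := by
    conv_rhs => rw [← h]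
    rfl
  rw [toM_apply, ofM_apply, this]
  ring

theorem ofM_toM (x : EE n) : ofM (toM x) = x := by
  funext s
  induction s using Sym2.ind with
  | _ i j =>
    rw [ofM_apply, toM_apply, toM_apply, Sym2.eq_swap (a := j)]
    ring

theorem toM_add (x y : EE n) : toM (x + y) = toM x + toM y := by
  ext i j
  simp

theorem toM_smul (c : ℝ) (x : EE n) : toM (c • x) = c • toM x := by
  ext i j
  simp

theorem ofM_add (x y : Matrix (Fin n) (Fin n) ℝ) : ofM (x + y) = ofM x + ofM y := by
  funext s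
  induction s using Sym2.ind with
  | _ i j => simp only [ofM_apply, Matrix.add_apply, Pi.add_apply]; ring

theorem ofM_smul (c : ℝ) (x : Matrix (Fin n) (Fin n) ℝ) : ofM (c • x) = c • ofM x := by
  funext s
  induction s using Sym2.ind with
  | _ i j => simp only [ofM_apply, Matrix.smul_apply, Pi.smul_apply, smul_eq_mul]; ring

/-- congruence action `x ↦ S x Sᵀ` -/
noncomputable def cg (S : Matrix (Fin n) (Fin n) ℝ) : EE n →ₗ[ℝ] EE n where
  toFun x := ofM (S * toM x * Sᵀ)
  map_add' x y := by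
    rw [toM_add, mul_add, add_mul, ofM_add]
  map_smul' c x := by
    rw [toM_smul, Matrix.mul_smul, Matrix.smul_mul, ofM_smul]
    rfl

theorem toM_cg (S : Matrix (Fin n) (Fin n) ℝ) (x : EE n) : toM (cg S x) = S * toM x * Sᵀ := by
  apply toM_ofM
  rw [transpose_mul, transpose_mul, transpose_transpose, toM_symm, Matrix.mul_assoc]

theorem toM_inj {x y : EE n} (h : toM x = toM y) : x = y := by
  rw [← ofM_toM x, ← ofM_toM y, h]

theorem cg_mul (S T : Matrix (Fin n) (Fin n) ℝ) : cg (S * T) = cg S * cg T := by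
  refine LinearMap.ext fun x => ?_
  apply toM_inj
  rw [Module.End.mul_apply, toM_cg, toM_cg, toM_cg, transpose_mul]
  simp only [Matrix.mul_assoc]

theorem cg_smul_one (c : ℝ) : cg (c • (1 : Matrix (Fin n) (Fin n) ℝ)) = c ^ 2 • (1 : Module.End ℝ (EE n)) := by
  refine LinearMap.ext fun x => ?_
  apply toM_inj
  rw [toM_cg, LinearMap.smul_apply, Module.End.one_apply, toM_smul]
  simp [smul_smul, sq]

theorem cg_one : cg (1 : Matrix (Fin n) (Fin n) ℝ) = 1 := by
  have := cg_smul_one (n := n) 1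
  simpa using this

/-- the character -/
noncomputable def chiC (n : ℕ) : Matrix (Fin n) (Fin n) ℝ →* ℝ where
  toFun S := |LinearMap.det (cg S)|
  map_one' := by rw [cg_one]; simp
  map_mul' S T := by rw [cg_mul, map_mul, abs_mul]

theorem finrank_EE (n : ℕ) : 2 * Module.finrank ℝ (EE n) = n * (n + 1) := by
  rw [Module.finrank_fintype_fun_eq_card, Sym2.card, Fintype.card_fin, Nat.choose_two_right]
  have : 2 ∣ (n + 1) * (n + 1 - 1) := by
    rw [Nat.add_sub_cancel]
    rcases Nat.even_or_odd n with h | h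
    · exact Dvd.dvd.mul_left h.two_dvd _
    · exact Dvd.dvd.mul_right (Odd.add_one h).two_dvd _
  rw [Nat.mul_div_cancel' this, Nat.add_sub_cancel]
  ring

theorem det_cg (S : Matrix (Fin n) (Fin n) ℝ) (hS : S.det ≠ 0) : |LinearMap.det (cg S)| = |S.det| ^ (n + 1) := by
  rcases Nat.eq_zero_or_pos n with hn | hn
  · subst hn
    have h1 : S = 1 := by ext i; exact i.elim0
    rw [h1, cg_one]
    simp
  · refine char_eq (chiC n) (fun M => abs_nonneg _) (n + 1) hn.ne' ?_ S hS
    intro c hc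
    have : chiC n (c • 1) = |LinearMap.det (cg (c • (1 : Matrix (Fin n) (Fin n) ℝ)))| := rfl
    rw [this, cg_smul_one, LinearMap.det_smul, map_one, mul_one, abs_pow, abs_pow, ← pow_mul, finrank_EE]

/-- left multiplication -/
noncomputable def lm (S : Matrix (Fin n) (Fin n) ℝ) : MM n →ₗ[ℝ] MM n where
  toFun A := fun i j => (S * Matrix.of A) i j
  map_add' A B := by
    funext i j
    have : Matrix.of (A + B) = Matrix.of A + Matrix.of B := rfl
    rw [this, mul_add]
    rfl
  map_smul' c A := by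
    funext i j
    have : Matrix.of (c • A) = c • Matrix.of A := rfl
    rw [this, Matrix.mul_smul]
    rfl

/-- right multiplication by the transpose -/
noncomputable def rm (S : Matrix (Fin n) (Fin n) ℝ) : MM n →ₗ[ℝ] MM n where
  toFun A := fun i j => (Matrix.of A * Sᵀ) i j
  map_add' A B := by
    funext i j
    have : Matrix.of (A + B) = Matrix.of A + Matrix.of B := rfl
    rw [this, add_mul]
    rfl
  map_smul' c A := by
    funext i j
    have : Matrix.of (c • A) = c • Matrix.of A := rfl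
    rw [this, Matrix.smul_mul]
    rfl

theorem of_lm (S : Matrix (Fin n) (Fin n) ℝ) (A : MM n) : Matrix.of (lm S A) = S * Matrix.of A := rfl
theorem of_rm (S : Matrix (Fin n) (Fin n) ℝ) (A : MM n) : Matrix.of (rm S A) = Matrix.of A * Sᵀ := rfl

theorem of_inj {A B : MM n} (h : Matrix.of A = Matrix.of B) : A = B := Matrix.of.injective h

theorem lm_mul (S T : Matrix (Fin n) (Fin n) ℝ) : lm (S * T) = lm S * lm T := by
  refine LinearMap.ext fun A => ?_
  apply of_inj
  rw [Module.End.mul_apply, of_lm, of_lm, of_lm, Matrix.mul_assoc]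

theorem rm_mul (S T : Matrix (Fin n) (Fin n) ℝ) : rm (S * T) = rm S * rm T := by
  refine LinearMap.ext fun A => ?_
  apply of_inj
  rw [Module.End.mul_apply, of_rm, of_rm, of_rm, transpose_mul, Matrix.mul_assoc]

theorem lm_smul_one (c : ℝ) : lm (c • (1 : Matrix (Fin n) (Fin n) ℝ)) = c • (1 : Module.End ℝ (MM n)) := by
  refine LinearMap.ext fun A => ?_
  apply of_inj
  rw [of_lm, Matrix.smul_mul, Matrix.one_mul]
  rfl

theorem rm_smul_one (c : ℝ) : rm (c • (1 : Matrix (Fin n) (Fin n) ℝ)) = c • (1 : Module.End ℝ (MM n)) := by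
  refine LinearMap.ext fun A => ?_
  apply of_inj
  rw [of_rm, transpose_smul, transpose_one, Matrix.mul_smul, Matrix.mul_one]
  rfl

theorem lm_one : lm (1 : Matrix (Fin n) (Fin n) ℝ) = 1 := by
  have := lm_smul_one (n := n) 1
  simpa using this

theorem rm_one : rm (1 : Matrix (Fin n) (Fin n) ℝ) = 1 := by
  have := rm_smul_one (n := n) 1
  simpa using this

noncomputable def chiL (n : ℕ) : Matrix (Fin n) (Fin n) ℝ →* ℝ where
  toFun S := |LinearMap.det (lm S)|
  map_one' := by rw [lm_one]; simp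
  map_mul' S T := by rw [lm_mul, map_mul, abs_mul]

noncomputable def chiR (n : ℕ) : Matrix (Fin n) (Fin n) ℝ →* ℝ where
  toFun S := |LinearMap.det (rm S)|
  map_one' := by rw [rm_one]; simp
  map_mul' S T := by rw [rm_mul, map_mul, abs_mul]

theorem finrank_MM (n : ℕ) : Module.finrank ℝ (MM n) = n * n := by
  rw [Module.finrank_pi_fintype]
  simp

theorem det_lm (S : Matrix (Fin n) (Fin n) ℝ) (hS : S.det ≠ 0) : |LinearMap.det (lm S)| = |S.det| ^ n := by
  rcases Nat.eq_zero_or_pos n with hn | hn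
  · subst hn
    have h1 : S = 1 := by ext i; exact i.elim0
    rw [h1, lm_one]
    simp
  · refine char_eq (chiL n) (fun M => abs_nonneg _) n hn.ne' ?_ S hS
    intro c hc
    have : chiL n (c • 1) = |LinearMap.det (lm (c • (1 : Matrix (Fin n) (Fin n) ℝ)))| := rfl
    rw [this, lm_smul_one, LinearMap.det_smul, map_one, mul_one, abs_pow, finrank_MM]

theorem det_rm (S : Matrix (Fin n) (Fin n) ℝ) (hS : S.det ≠ 0) : |LinearMap.det (rm S)| = |S.det| ^ n := by
  rcases Nat.eq_zero_or_pos n with hn | hn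
  · subst hn
    have h1 : S = 1 := by ext i; exact i.elim0
    rw [h1, rm_one]
    simp
  · refine char_eq (chiR n) (fun M => abs_nonneg _) n hn.ne' ?_ S hS
    intro c hc
    have : chiR n (c • 1) = |LinearMap.det (rm (c • (1 : Matrix (Fin n) (Fin n) ℝ)))| := rfl
    rw [this, rm_smul_one, LinearMap.det_smul, map_one, mul_one, abs_pow, finrank_MM]

/-! ### change of variables -/

theorem lint_linear {V : Type*} [NormedAddCommGroup V] [NormedSpace ℝ V] [MeasurableSpace V] [BorelSpace V]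
    [FiniteDimensional ℝ V] (μ : Measure V) [μ.IsAddHaarMeasure] (T : V →ₗ[ℝ] V) (hT : LinearMap.det T ≠ 0)
    (f : V → ℝ≥0∞) (hf : Measurable f) :
    ∫⁻ x, f (T x) ∂μ = ENNReal.ofReal (|LinearMap.det T|⁻¹) * ∫⁻ x, f x ∂μ := by
  have hTm : Measurable T := (LinearMap.continuous_of_finiteDimensional T).measurable
  rw [← lintegral_map hf hTm, Measure.map_linearMap_addHaar_eq_smul_addHaar μ hT, lintegral_smul_measure,
    abs_inv, smul_eq_mul]

theorem lint_cg (S : Matrix (Fin n) (Fin n) ℝ) (hS : S.det ≠ 0) (f : EE n → ℝ≥0∞) (hf : Measurable f) :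
    ∫⁻ x, f (cg S x) = ENNReal.ofReal ((|S.det| ^ (n + 1))⁻¹) * ∫⁻ x, f x := by
  have h := det_cg S hS
  have h0 : LinearMap.det (cg S) ≠ 0 := by
    intro h1
    rw [h1, abs_zero] at h
    exact (pow_ne_zero _ (abs_ne_zero.2 hS)) h.symm
  rw [lint_linear volume (cg S) h0 f hf, h]

theorem lint_lm (S : Matrix (Fin n) (Fin n) ℝ) (hS : S.det ≠ 0) (f : MM n → ℝ≥0∞) (hf : Measurable f) :
    ∫⁻ x, f (lm S x) = ENNReal.ofReal ((|S.det| ^ n)⁻¹) * ∫⁻ x, f x := by
  have h := det_lm S hS
  have h0 : LinearMap.det (lm S) ≠ 0 := by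
    intro h1
    rw [h1, abs_zero] at h
    exact (pow_ne_zero _ (abs_ne_zero.2 hS)) h.symm
  rw [lint_linear volume (lm S) h0 f hf, h]

theorem lint_rm (S : Matrix (Fin n) (Fin n) ℝ) (hS : S.det ≠ 0) (f : MM n → ℝ≥0∞) (hf : Measurable f) :
    ∫⁻ x, f (rm S x) = ENNReal.ofReal ((|S.det| ^ n)⁻¹) * ∫⁻ x, f x := by
  have h := det_rm S hS
  have h0 : LinearMap.det (rm S) ≠ 0 := by
    intro h1
    rw [h1, abs_zero] at h
    exact (pow_ne_zero _ (abs_ne_zero.2 hS)) h.symm
  rw [lint_linear volume (rm S) h0 f hf, h]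

end Q298.Sv
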