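import Mathlib
import Pool.Agent.Q298.Sv.Sp

set_option autoImplicit false
set_option maxHeartbeats 4000000
open Matrix MeasureTheory Set
open scoped ENNReal

namespace Q298.Sv

variable {n : ℕ}

theorem pd_diag {W : Matrix (Fin n) (Fin n) ℝ} (hW : W.PosDef) :
    ∃ (Q : Matrix (Fin n) (Fin n) ℝ) (w : Fin n → ℝ), Qᵀ * Q = 1 ∧ Q * Qᵀ = 1 ∧ (∀ i, 0 < w i) ∧
      W = Q * diagonal w * Qᵀ := by
  have hH := hW.1
  refine ⟨hH.eigenvectorUnitary, hH.eigenvalues, ?_, ?_, fun i => hW.eigenvalues_pos i, ?_⟩
  · have := (mem_unitaryGroup_iff').1 hH.eigenvectorUnitary.2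
    rwa [star_eq_conjTranspose, conjTranspose_eq_transpose_of_trivial] at this
  · have := (mem_unitaryGroup_iff).1 hH.eigenvectorUnitary.2
    rwa [star_eq_conjTranspose, conjTranspose_eq_transpose_of_trivial] at this
  · conv_lhs => rw [hH.spectral_theorem, Unitary.conjStarAlgAut_apply, star_eq_conjTranspose, conjTranspose_eq_transpose_of_trivial]
    rfl

theorem pd_root {W : Matrix (Fin n) (Fin n) ℝ} (hW : W.PosDef) :
    ∃ S : Matrix (Fin n) (Fin n) ℝ, S.det ≠ 0 ∧ W = Sᵀ * S := by
  obtain ⟨Q, w, h1, h2, hw, hWQ⟩ := pd_diag hW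
  refine ⟨diagonal (fun i => Real.sqrt (w i)) * Qᵀ, ?_, ?_⟩
  · rw [det_mul, det_diagonal, det_transpose]
    apply mul_ne_zero
    · exact Finset.prod_ne_zero_iff.2 fun i _ => (Real.sqrt_pos.2 (hw i)).ne'
    · intro h
      have := congrArg det h1
      rw [det_mul, h, mul_zero, det_one] at this
      exact zero_ne_one this
  · rw [transpose_mul, transpose_transpose, diagonal_transpose, Matrix.mul_assoc,
      ← Matrix.mul_assoc (diagonal _) (diagonal _), diagonal_mul_diagonal, hWQ, Matrix.mul_assoc]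
    congr 3
    funext i
    exact (Real.mul_self_sqrt (hw i).le).symm

theorem mulVec_inj_of_det {S : Matrix (Fin n) (Fin n) ℝ} (hS : S.det ≠ 0) : Function.Injective S.mulVec := by
  rw [mulVec_injective_iff_isUnit, isUnit_iff_isUnit_det]
  exact isUnit_iff_ne_zero.2 hS

theorem pd_of_root {S : Matrix (Fin n) (Fin n) ℝ} (hS : S.det ≠ 0) : (Sᵀ * S).PosDef := by
  have := PosDef.conjTranspose_mul_self S (mulVec_inj_of_det hS)
  rwa [conjTranspose_eq_transpose_of_trivial] at this

theorem pd_conj {W : Matrix (Fin n) (Fin n) ℝ} (hW : W.PosDef) {S : Matrix (Fin n) (Fin n) ℝ} (hS : S.det ≠ 0) :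
    (S * W * Sᵀ).PosDef := by
  obtain ⟨T, hT, rfl⟩ := pd_root hW
  have : S * (Tᵀ * T) * Sᵀ = (T * Sᵀ)ᵀ * (T * Sᵀ) := by
    rw [transpose_mul, transpose_transpose]
    simp only [Matrix.mul_assoc]
  rw [this]
  apply pd_of_root
  rw [det_mul, det_transpose]
  exact mul_ne_zero hT hS

theorem pd_add {W : Matrix (Fin n) (Fin n) ℝ} (hW : W.PosDef) (c : ℝ) (hc : 0 ≤ c) :
    (W + c • (1 : Matrix (Fin n) (Fin n) ℝ)).PosDef := by
  apply hW.add_posSemidef
  exact PosSemidef.one.smul hc

/-! ### the cone -/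

/-- positive definite symmetric matrices -/
def PDs (n : ℕ) : Set (EE n) := {x | (toM x).PosDef}

theorem measurable_EE {α : Type*} [MeasurableSpace α] (f : α → EE n)
    (h : ∀ i j : Fin n, Measurable fun a => f a s(i, j)) : Measurable f := by
  rw [measurable_pi_iff]
  intro s
  induction s using Sym2.ind with
  | _ i j => exact h i j

theorem continuous_toM_apply (i j : Fin n) : Continuous fun x : EE n => toM x i j := by
  simp only [toM_apply]
  fun_prop

theorem continuous_det_toM : Continuous fun x : EE n => (toM x).det := by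
  have : Continuous (toM : EE n → Matrix (Fin n) (Fin n) ℝ) := by
    apply continuous_matrix
    intro i j
    exact continuous_toM_apply i j
  exact this.matrix_det

theorem measurableSet_PDs : MeasurableSet (PDs n) := by
  have h1 : PDs n = {x : EE n | ∀ v : Fin n → ℝ, 0 ≤ v ⬝ᵥ (toM x *ᵥ v)} ∩ {x : EE n | (toM x).det ≠ 0} := by
    ext x
    constructor
    · intro hx
      refine ⟨fun v => ?_, ?_⟩
      · have := hx.posSemidef.dotProduct_mulVec_nonneg v
        simpa using this
      · have := PosDef.det_pos hx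
        exact this.ne'
    · rintro ⟨h2, h3⟩
      have hps : (toM x).PosSemidef := by
        apply PosSemidef.of_dotProduct_mulVec_nonneg
        · rw [IsHermitian, conjTranspose_eq_transpose_of_trivial, toM_symm]
        · intro v
          simpa using h2 v
      exact (hps.posDef_iff_det_ne_zero).2 h3
  rw [h1]
  apply MeasurableSet.inter
  · have : {x : EE n | ∀ v : Fin n → ℝ, 0 ≤ v ⬝ᵥ (toM x *ᵥ v)} = ⋂ v : Fin n → ℝ, {x : EE n | 0 ≤ v ⬝ᵥ (toM x *ᵥ v)} := by
      ext x; simp
    rw [this]
    apply IsClosed.measurableSet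
    apply isClosed_iInter
    intro v
    apply isClosed_le continuous_const
    simp only [dotProduct, mulVec]
    apply continuous_finsetSum
    intro i _
    apply Continuous.mul continuous_const
    apply continuous_finsetSum
    intro j _
    exact (continuous_toM_apply i j).mul continuous_const
  · exact (isOpen_ne_fun continuous_det_toM continuous_const).measurableSet

/-- square root of the determinant -/
noncomputable def rr (x : EE n) : ℝ := Real.sqrt (toM x).det

theorem rr_pos {x : EE n} (hx : x ∈ PDs n) : 0 < rr x := Real.sqrt_pos.2 (PosDef.det_pos hx)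

theorem rr_root {x : EE n} {S : Matrix (Fin n) (Fin n) ℝ} (h : toM x = Sᵀ * S) : rr x = |S.det| := by
  rw [rr, h, det_mul, det_transpose]
  exact Real.sqrt_mul_self_eq_abs _

theorem continuous_rr : Continuous (rr : EE n → ℝ) := Real.continuous_sqrt.comp continuous_det_toM

theorem rr_cg (S : Matrix (Fin n) (Fin n) ℝ) (x : EE n) : rr (cg S x) = |S.det| * rr x := by
  rw [rr, toM_cg, det_mul, det_mul, det_transpose, rr]
  have : S.det * (toM x).det * S.det = S.det ^ 2 * (toM x).det := by ring
  rw [this, Real.sqrt_mul (sq_nonneg _), Real.sqrt_sq_eq_abs]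

theorem cg_mem {S : Matrix (Fin n) (Fin n) ℝ} (hS : S.det ≠ 0) {x : EE n} (hx : x ∈ PDs n) : cg S x ∈ PDs n := by
  show (toM (cg S x)).PosDef
  rw [toM_cg]
  exact pd_conj hx hS

theorem cg_inv_cg {S : Matrix (Fin n) (Fin n) ℝ} (hS : S.det ≠ 0) (x : EE n) : cg S⁻¹ (cg S x) = x := by
  have h : cg S⁻¹ * cg S = 1 := by
    rw [← cg_mul, Matrix.nonsing_inv_mul _ (isUnit_iff_ne_zero.2 hS), cg_one]
  have := congrArg (fun T : Module.End ℝ (EE n) => T x) h
  exact this

theorem cg_mem_iff {S : Matrix (Fin n) (Fin n) ℝ} (hS : S.det ≠ 0) {x : EE n} : cg S x ∈ PDs n ↔ x ∈ PDs n := by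
  constructor
  · intro h
    have hS' : (S⁻¹).det ≠ 0 := by
      rw [det_nonsing_inv, Ring.inverse_eq_inv']
      exact inv_ne_zero hS
    have := cg_mem hS' h
    rwa [cg_inv_cg hS] at this
  · exact cg_mem hS

/-- Gram map -/
noncomputable def qq (A : MM n) : EE n := ofM ((Matrix.of A)ᵀ * Matrix.of A)

theorem toM_qq (A : MM n) : toM (qq A) = (Matrix.of A)ᵀ * Matrix.of A := by
  apply toM_ofM
  rw [transpose_mul, transpose_transpose]

theorem qq_lm (S : Matrix (Fin n) (Fin n) ℝ) (x : EE n) (h : toM x = Sᵀ * S) (A : MM n) :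
    qq (lm S A) = cg (Matrix.of A)ᵀ x := by
  apply toM_inj
  rw [toM_qq, toM_cg, of_lm, h, transpose_mul, transpose_transpose]
  simp only [Matrix.mul_assoc]

theorem qq_mem {A : MM n} (h : (Matrix.of A).det ≠ 0) : qq A ∈ PDs n := by
  show (toM (qq A)).PosDef
  rw [toM_qq]
  exact pd_of_root h

theorem continuous_of : Continuous (fun A : MM n => (Matrix.of A : Matrix (Fin n) (Fin n) ℝ)) := by
  apply continuous_matrix
  intro i j
  simp only [of_apply]
  fun_prop

theorem qq_apply (A : MM n) (i j : Fin n) : qq A s(i, j) = ∑ k, A k i * A k j := by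
  have : qq A s(i, j) = toM (qq A) i j := rfl
  rw [this, toM_qq, mul_apply]
  rfl

theorem continuous_qq : Continuous (qq : MM n → EE n) := by
  apply continuous_pi
  intro s
  induction s using Sym2.ind with
  | _ i j =>
    simp only [qq_apply]
    fun_prop

end Q298.Sv
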