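import Mathlib
import Pool.Agent.Q298.Sv.Pd

set_option autoImplicit false
set_option maxHeartbeats 4000000
open Matrix MeasureTheory Set
open scoped ENNReal

namespace Q298.Sv

variable {n : ℕ}

theorem continuous_det_of : Continuous fun A : MM n => (Matrix.of A).det := continuous_of.matrix_det

/-- singular matrices form a null set -/
theorem det_null : volume {A : MM n | (Matrix.of A).det = 0} = 0 := by
  set N := {A : MM n | (Matrix.of A).det = 0} with hN
  have hNm : MeasurableSet N := (isClosed_eq continuous_det_of continuous_const).measurableSet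
  let I1 : MM n := fun i j => (1 : Matrix (Fin n) (Fin n) ℝ) i j
  have htr : ∀ s : ℝ, ∫⁻ A : MM n, N.indicator 1 (A + s • I1) = volume N := by
    intro s
    rw [lintegral_add_right_eq_self (fun A : MM n => N.indicator (1 : MM n → ℝ≥0∞) A) (s • I1),
      lintegral_indicator_one hNm]
  have hfin : ∀ A : MM n, {s : ℝ | A + s • I1 ∈ N}.Finite := by
    intro A
    have hp : (-(Matrix.of A)).charpoly ≠ 0 := (Matrix.charpoly_monic _).ne_zero
    apply ((-(Matrix.of A)).charpoly.roots.toFinset.finite_toSet).subset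
    intro s hs
    simp only [Finset.mem_coe, Multiset.mem_toFinset]
    rw [Polynomial.mem_roots hp, Polynomial.IsRoot, Matrix.eval_charpoly]
    have : Matrix.scalar (Fin n) s - -(Matrix.of A) = Matrix.of (A + s • I1) := by
      ext i j
      simp only [Matrix.sub_apply, Matrix.neg_apply, scalar_apply, of_apply, Pi.add_apply, Pi.smul_apply, smul_eq_mul, I1,
        diagonal_apply, Matrix.one_apply]
      split_ifs <;> ring
    rw [this]
    exact hs
  have hmeas : Measurable (fun p : ℝ × MM n => N.indicator (1 : MM n → ℝ≥0∞) (p.2 + p.1 • I1)) := by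
    apply (measurable_one.indicator hNm).comp
    fun_prop
  have h1 : ∫⁻ s in Icc (0 : ℝ) 1, ∫⁻ A : MM n, N.indicator 1 (A + s • I1) = volume N := by
    simp only [htr]
    simp
  rw [lintegral_lintegral_swap hmeas.aemeasurable] at h1
  rw [← h1]
  have h2 : ∀ A : MM n, ∫⁻ s in Icc (0 : ℝ) 1, N.indicator (1 : MM n → ℝ≥0∞) (A + s • I1) = 0 := by
    intro A
    have hae : ∀ᵐ s : ℝ ∂(volume.restrict (Icc (0 : ℝ) 1)), N.indicator (1 : MM n → ℝ≥0∞) (A + s • I1) = 0 := by
      apply ae_restrict_of_ae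
      have : volume {s : ℝ | A + s • I1 ∈ N} = 0 := (hfin A).measure_zero _
      filter_upwards [compl_mem_ae_iff.2 this] with s hs
      have hs' : A + s • I1 ∉ N := hs
      exact Set.indicator_of_notMem hs' (1 : MM n → ℝ≥0∞)
    rw [lintegral_congr_ae hae, lintegral_zero]
  simp only [h2, lintegral_zero]

theorem det_ae : ∀ᵐ A : MM n, (Matrix.of A).det ≠ 0 := by
  have := det_null (n := n)
  exact compl_mem_ae_iff.2 this

theorem cg_apply (S : Matrix (Fin n) (Fin n) ℝ) (x : EE n) (i j : Fin n) :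
    cg S x s(i, j) = ∑ k, (∑ l, S i l * x s(l, k)) * S j k := by
  have : cg S x s(i, j) = toM (cg S x) i j := rfl
  rw [this, toM_cg, mul_apply]
  apply Finset.sum_congr rfl
  intro k _
  rw [mul_apply]
  rfl

theorem meas_cg1 : Measurable fun p : EE n × MM n => cg (Matrix.of p.2)ᵀ p.1 := by
  apply measurable_EE
  intro i j
  simp only [cg_apply, transpose_apply, of_apply]
  fun_prop

theorem meas_inv (i j : Fin n) : Measurable fun A : MM n => ((Matrix.of A)ᵀ)⁻¹ i j := by
  have h : ∀ A : MM n, ((Matrix.of A)ᵀ)⁻¹ i j = ((Matrix.of A)ᵀ.det)⁻¹ * ((Matrix.of A)ᵀ).adjugate i j := by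
    intro A
    rw [inv_def, Matrix.smul_apply, Ring.inverse_eq_inv', smul_eq_mul]
  simp only [h]
  have c1 : Continuous fun A : MM n => (Matrix.of A)ᵀ := continuous_of.matrix_transpose
  have c2 : Continuous fun A : MM n => ((Matrix.of A)ᵀ).adjugate i j := (c1.matrix_adjugate).matrix_elem i j
  exact c1.matrix_det.measurable.inv.mul c2.measurable

theorem meas_cg2 : Measurable fun p : EE n × MM n => cg ((Matrix.of p.2)ᵀ)⁻¹ p.1 := by
  apply measurable_EE
  intro i j
  simp only [cg_apply]
  have hm : ∀ i j : Fin n, Measurable fun p : EE n × MM n => ((Matrix.of p.2)ᵀ)⁻¹ i j := fun i j =>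
    (meas_inv i j).comp measurable_snd
  apply Finset.measurable_sum
  intro k _
  apply Measurable.mul _ (hm j k)
  apply Finset.measurable_sum
  intro l _
  apply Measurable.mul (hm i l)
  fun_prop

/-- bounded region -/
def Bd (n : ℕ) : Set (EE n) := {x | ∀ s, |x s| ≤ 2}

theorem measurableSet_Bd : MeasurableSet (Bd n) := by
  have : Bd n = ⋂ s, {x : EE n | |x s| ≤ 2} := by ext; simp [Bd]
  rw [this]
  apply MeasurableSet.iInter
  intro s
  exact (isClosed_le (by fun_prop) continuous_const).measurableSet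

noncomputable def kk (x : EE n) : ℝ≥0∞ := (PDs n ∩ Bd n).indicator (fun x => ENNReal.ofReal (rr x ^ (n + 1))) x

theorem measurable_kk : Measurable (kk : EE n → ℝ≥0∞) := by
  apply Measurable.indicator _ (measurableSet_PDs.inter measurableSet_Bd)
  exact ENNReal.measurable_ofReal.comp (continuous_rr.measurable.pow_const _)

noncomputable def ww (x : EE n) : ℝ≥0∞ := ENNReal.ofReal (rr x)⁻¹ * kk x

theorem measurable_ww : Measurable (ww : EE n → ℝ≥0∞) :=
  (ENNReal.measurable_ofReal.comp continuous_rr.measurable.inv).mul measurable_kk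

/-- first evaluation -/
theorem J_first (f : EE n → ℝ≥0∞) (hf : Measurable f) :
    ∫⁻ x : EE n, ∫⁻ A : MM n, ww x * f (cg (Matrix.of A)ᵀ x)
      = (∫⁻ A : MM n, f (qq A)) * volume (PDs n ∩ Bd n) := by
  have h : ∀ x : EE n, ∫⁻ A : MM n, ww x * f (cg (Matrix.of A)ᵀ x)
      = (PDs n ∩ Bd n).indicator (fun _ => ∫⁻ A : MM n, f (qq A)) x := by
    intro x
    by_cases hx : x ∈ PDs n ∩ Bd n
    · rw [indicator_of_mem hx]
      obtain ⟨S, hS, hxS⟩ := pd_root hx.1
      have hr : rr x = |S.det| := rr_root hxS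
      have hrp := rr_pos hx.1
      have e1 : ∀ A : MM n, ww x * f (cg (Matrix.of A)ᵀ x) = ww x * f (qq (lm S A)) := by
        intro A
        rw [qq_lm S x hxS]
      simp only [e1]
      have hm : Measurable fun A : MM n => f (qq A) := hf.comp continuous_qq.measurable
      have hmS : Measurable fun A : MM n => f (qq (lm S A)) :=
        hm.comp (LinearMap.continuous_of_finiteDimensional (lm S)).measurable
      rw [lintegral_const_mul _ hmS, lint_lm S hS (fun A => f (qq A)) hm, ← mul_assoc]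
      have : ww x * ENNReal.ofReal ((|S.det| ^ n)⁻¹) = 1 := by
        unfold ww kk
        rw [indicator_of_mem hx, ← hr, ← ENNReal.ofReal_mul (by positivity), ← ENNReal.ofReal_mul (by positivity)]
        rw [ENNReal.ofReal_eq_one]
        rw [pow_succ]
        field_simp
      rw [this, one_mul]
    · rw [indicator_of_notMem hx]
      have : ww x = 0 := by
        unfold ww kk
        rw [indicator_of_notMem hx, mul_zero]
      simp [this]
  simp only [h]
  rw [lintegral_indicator_const (measurableSet_PDs.inter measurableSet_Bd)]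

/-- the universal constant -/
noncomputable def KK (n : ℕ) : ℝ≥0∞ :=
  ∫⁻ A : MM n, ENNReal.ofReal ((|(Matrix.of A).det| ^ n)⁻¹) * kk (cg ((Matrix.of A)ᵀ)⁻¹ (ofM 1))

theorem meas_H (y : EE n) : Measurable fun A : MM n =>
    ENNReal.ofReal ((|(Matrix.of A).det| ^ n)⁻¹) * kk (cg ((Matrix.of A)ᵀ)⁻¹ y) := by
  apply Measurable.mul
  · apply ENNReal.measurable_ofReal.comp
    exact ((continuous_det_of.measurable.norm).pow_const n).inv
  · have h1 : Measurable (fun A : MM n => ((y, A) : EE n × MM n)) := measurable_const.prodMk measurable_id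
    have h2 := meas_cg2.comp h1
    simp only [Function.comp_def] at h2
    have h3 := measurable_kk.comp h2
    simp only [Function.comp_def] at h3
    exact h3

theorem K_const (y : EE n) (hy : y ∈ PDs n) :
    ∫⁻ A : MM n, ENNReal.ofReal ((|(Matrix.of A).det| ^ n)⁻¹) * kk (cg ((Matrix.of A)ᵀ)⁻¹ y) = KK n := by
  obtain ⟨S, hS, hyS⟩ := pd_root hy
  have hyS : toM y = Sᵀ * S := hyS
  have hS' : Sᵀ.det ≠ 0 := by rw [det_transpose]; exact hS
  have h1 := lint_rm Sᵀ hS' _ (meas_H y)
  have he : cg (Sᵀ)⁻¹ y = ofM 1 := by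
    apply toM_inj
    rw [toM_cg, hyS, toM_ofM _ transpose_one, ← Matrix.mul_assoc,
      Matrix.nonsing_inv_mul _ (isUnit_iff_ne_zero.2 hS'), Matrix.one_mul, transpose_nonsing_inv, transpose_transpose,
      Matrix.mul_nonsing_inv _ (isUnit_iff_ne_zero.2 hS)]
  have h2 : ∀ A : MM n, ENNReal.ofReal ((|(Matrix.of (rm Sᵀ A)).det| ^ n)⁻¹) * kk (cg ((Matrix.of (rm Sᵀ A))ᵀ)⁻¹ y)
      = ENNReal.ofReal ((|Sᵀ.det| ^ n)⁻¹) * (ENNReal.ofReal ((|(Matrix.of A).det| ^ n)⁻¹) * kk (cg ((Matrix.of A)ᵀ)⁻¹ (ofM 1))) := by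
    intro A
    rw [of_rm, transpose_transpose, det_mul, det_transpose, abs_mul, mul_pow, mul_inv, transpose_mul,
      Matrix.mul_inv_rev, cg_mul, Module.End.mul_apply, he, ENNReal.ofReal_mul (by positivity), mul_comm (ENNReal.ofReal _) (ENNReal.ofReal _), mul_assoc]
  simp only [h2] at h1
  rw [lintegral_const_mul _ (meas_H _)] at h1
  have hc0 : ENNReal.ofReal ((|Sᵀ.det| ^ n)⁻¹) ≠ 0 := by
    rw [ne_eq, ENNReal.ofReal_eq_zero, not_le]
    have := abs_pos.2 hS'
    positivity
  exact ((ENNReal.mul_right_inj hc0 ENNReal.ofReal_ne_top).1 h1).symm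

/-- second evaluation -/
theorem J_second (f : EE n → ℝ≥0∞) (hf : Measurable f) (hsupp : ∀ x, x ∉ PDs n → f x = 0) :
    ∫⁻ x : EE n, ∫⁻ A : MM n, ww x * f (cg (Matrix.of A)ᵀ x)
      = (∫⁻ y : EE n, f y * ENNReal.ofReal (rr y)⁻¹) * KK n := by
  have hm1 : Measurable fun p : EE n × MM n => ww p.1 * f (cg (Matrix.of p.2)ᵀ p.1) :=
    (measurable_ww.comp measurable_fst).mul (hf.comp meas_cg1)
  rw [lintegral_lintegral_swap hm1.aemeasurable]
  have h1 : ∀ᵐ A : MM n, ∫⁻ x : EE n, ww x * f (cg (Matrix.of A)ᵀ x)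
      = ∫⁻ y : EE n, (f y * ENNReal.ofReal (rr y)⁻¹) *
        (ENNReal.ofReal ((|(Matrix.of A).det| ^ n)⁻¹) * kk (cg ((Matrix.of A)ᵀ)⁻¹ y)) := by
    filter_upwards [det_ae] with A hA
    set T := (Matrix.of A)ᵀ with hT
    have hT0 : T.det ≠ 0 := by rw [hT, det_transpose]; exact hA
    have hTd : |T.det| = |(Matrix.of A).det| := by rw [hT, det_transpose]
    have hmG : Measurable fun y : EE n => ww (cg T⁻¹ y) * f y :=
      (measurable_ww.comp (LinearMap.continuous_of_finiteDimensional (cg T⁻¹)).measurable).mul hf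
    have h2 := lint_cg T hT0 _ hmG
    have h3 : ∀ x : EE n, ww (cg T⁻¹ (cg T x)) * f (cg T x) = ww x * f (cg T x) := by
      intro x
      rw [cg_inv_cg hT0]
    simp only [h3] at h2
    rw [h2, ← lintegral_const_mul _ hmG]
    apply lintegral_congr
    intro y
    by_cases hy : y ∈ PDs n
    · have hrp := rr_pos hy
      have e1 : rr (cg T⁻¹ y) = |T.det|⁻¹ * rr y := by
        rw [rr_cg, det_nonsing_inv, Ring.inverse_eq_inv', abs_inv]
      unfold ww
      rw [e1, mul_inv, inv_inv, ← hTd, ENNReal.ofReal_mul (abs_nonneg _)]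
      have hTp : 0 < |T.det| := abs_pos.2 hT0
      have e2 : ENNReal.ofReal ((|T.det| ^ (n + 1))⁻¹) * ENNReal.ofReal |T.det| = ENNReal.ofReal ((|T.det| ^ n)⁻¹) := by
        rw [← ENNReal.ofReal_mul (by positivity)]
        congr 1
        rw [pow_succ]
        field_simp
      calc ENNReal.ofReal ((|T.det| ^ (n + 1))⁻¹) * (ENNReal.ofReal |T.det| * ENNReal.ofReal (rr y)⁻¹ * kk (cg T⁻¹ y) * f y)
          = (ENNReal.ofReal ((|T.det| ^ (n + 1))⁻¹) * ENNReal.ofReal |T.det|) * (ENNReal.ofReal (rr y)⁻¹ * kk (cg T⁻¹ y) * f y) := by ring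
        _ = _ := by rw [e2]; ring
    · rw [hsupp y hy]
      simp
  rw [lintegral_congr_ae h1]
  have hm2 : Measurable fun p : MM n × EE n => (f p.2 * ENNReal.ofReal (rr p.2)⁻¹) *
        (ENNReal.ofReal ((|(Matrix.of p.1).det| ^ n)⁻¹) * kk (cg ((Matrix.of p.1)ᵀ)⁻¹ p.2)) := by
    apply Measurable.mul
    · exact (hf.comp measurable_snd).mul (ENNReal.measurable_ofReal.comp (continuous_rr.measurable.inv.comp measurable_snd))
    · apply Measurable.mul
      · apply ENNReal.measurable_ofReal.comp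
        exact (((continuous_det_of.measurable.norm).pow_const n).inv).comp measurable_fst
      · have h2 := (meas_cg2 (n := n)).comp (measurable_swap (α := MM n) (β := EE n))
        simp only [Function.comp_def, Prod.snd_swap, Prod.fst_swap] at h2
        have h3 := measurable_kk.comp h2
        simp only [Function.comp_def] at h3
        exact h3
  rw [lintegral_lintegral_swap hm2.aemeasurable]
  have h3 : ∀ y : EE n, ∫⁻ A : MM n, (f y * ENNReal.ofReal (rr y)⁻¹) *
        (ENNReal.ofReal ((|(Matrix.of A).det| ^ n)⁻¹) * kk (cg ((Matrix.of A)ᵀ)⁻¹ y))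
      = (f y * ENNReal.ofReal (rr y)⁻¹) * KK n := by
    intro y
    rw [lintegral_const_mul _ (meas_H y)]
    by_cases hy : y ∈ PDs n
    · rw [K_const y hy]
    · rw [hsupp y hy]
      simp
  simp only [h3]
  have hm3 : Measurable fun y : EE n => f y * ENNReal.ofReal (rr y)⁻¹ :=
    hf.mul (ENNReal.measurable_ofReal.comp continuous_rr.measurable.inv)
  rw [lintegral_mul_const _ hm3]

/-- **Gram density formula** -/
theorem gram_formula (f : EE n → ℝ≥0∞) (hf : Measurable f) (hsupp : ∀ x, x ∉ PDs n → f x = 0) :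
    (∫⁻ A : MM n, f (qq A)) * volume (PDs n ∩ Bd n)
      = (∫⁻ y : EE n, f y * ENNReal.ofReal (rr y)⁻¹) * KK n := by
  rw [← J_first f hf, J_second f hf hsupp]

end Q298.Sv
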