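import Mathlib
import Pool.Agent.Q298.Sv.Gm

set_option autoImplicit false
set_option maxHeartbeats 4000000
open Matrix MeasureTheory Set
open scoped ENNReal

namespace Q298.Sv

variable {n : ℕ}

abbrev OG (n : ℕ) := unitary (Matrix (Fin n) (Fin n) ℝ)

instance compactOG (n : ℕ) : CompactSpace (OG n) := by
  refine isCompact_iff_compactSpace.1 (?_ : IsCompact ((unitary (Matrix (Fin n) (Fin n) ℝ) : Set (Matrix (Fin n) (Fin n) ℝ))))
  have h1 : IsCompact (Set.pi Set.univ fun _ : Fin n => Set.pi Set.univ fun _ : Fin n => Icc (-1 : ℝ) 1) :=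
    isCompact_univ_pi fun _ => isCompact_univ_pi fun _ => isCompact_Icc
  have h2 : IsClosed ((unitary (Matrix (Fin n) (Fin n) ℝ) : Set (Matrix (Fin n) (Fin n) ℝ))) := isClosed_unitary
  apply IsCompact.of_isClosed_subset h1 h2
  intro U hU i _ j _
  have hU' : U ∈ Matrix.unitaryGroup (Fin n) ℝ := hU
  have h3 := entry_norm_bound_of_unitary hU' i j
  rw [Real.norm_eq_abs, abs_le] at h3
  exact h3

instance (n : ℕ) : MeasurableSpace (OG n) := borel _
instance (n : ℕ) : BorelSpace (OG n) := ⟨rfl⟩

noncomputable def topK (n : ℕ) : TopologicalSpace.PositiveCompacts (OG n) :=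
  ⟨⟨univ, isCompact_univ⟩, by simp⟩

noncomputable def hm (n : ℕ) : Measure (OG n) := Measure.haarMeasure (topK n)

instance hm_prob (n : ℕ) : IsProbabilityMeasure (hm n) := by
  constructor
  have := Measure.haarMeasure_self (K₀ := topK n)
  exact this

instance hm_inv (n : ℕ) : (hm n).IsMulLeftInvariant := Measure.isMulLeftInvariant_haarMeasure _

/-- coordinates of an orthogonal matrix -/
def co (U : OG n) : MM n := fun i j => (U : Matrix (Fin n) (Fin n) ℝ) i j

theorem continuous_co : Continuous (co : OG n → MM n) := by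
  apply continuous_pi
  intro i
  apply continuous_pi
  intro j
  exact continuous_subtype_val.matrix_elem i j

theorem continuous_co_gram : Continuous fun U : MM n => (Matrix.of U)ᵀ * Matrix.of U :=
  continuous_of.matrix_transpose.matrix_mul continuous_of

theorem exists_nu (n : ℕ) : ∃ ν : Measure (MM n), IsProbabilityMeasure ν ∧
    (∀ᵐ U ∂ν, (Matrix.of U)ᵀ * Matrix.of U = 1) ∧
    ∀ O : Matrix (Fin n) (Fin n) ℝ, Oᵀ * O = 1 → O * Oᵀ = 1 → ∀ f : MM n → ℝ≥0∞, Measurable f →
      ∫⁻ U, f (lm O U) ∂ν = ∫⁻ U, f U ∂ν := by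
  refine ⟨(hm n).map co, ?_, ?_, ?_⟩
  · exact Measure.isProbabilityMeasure_map continuous_co.measurable.aemeasurable
  · have hms : MeasurableSet {U : MM n | (Matrix.of U)ᵀ * Matrix.of U = 1} :=
      (isClosed_eq continuous_co_gram continuous_const).measurableSet
    rw [ae_map_iff continuous_co.measurable.aemeasurable hms]
    apply Filter.Eventually.of_forall
    intro U
    have h := (Unitary.mem_iff.1 U.2).1
    rw [star_eq_conjTranspose, conjTranspose_eq_transpose_of_trivial] at h
    exact h
  · intro O h1 h2 f hf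
    have hl : Measurable fun U : MM n => f (lm O U) :=
      hf.comp (LinearMap.continuous_of_finiteDimensional (lm O)).measurable
    rw [lintegral_map hl continuous_co.measurable, lintegral_map hf continuous_co.measurable]
    have hO : O ∈ unitary (Matrix (Fin n) (Fin n) ℝ) := by
      rw [Unitary.mem_iff, star_eq_conjTranspose, conjTranspose_eq_transpose_of_trivial]
      exact ⟨h1, h2⟩
    have h3 := lintegral_mul_left_eq_self (μ := hm n) (fun U : OG n => f (co U)) (⟨O, hO⟩ : OG n)
    rw [← h3]
    rfl

end Q298.Sv
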