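import Mathlib

set_option autoImplicit false
set_option maxHeartbeats 4000000
open MeasureTheory Set ProbabilityTheory
open scoped ENNReal

namespace Q298.Sv

theorem lintegral_pi_prod {J : Type} [Fintype J] {X : J → Type}
    [∀ j, MeasurableSpace (X j)] (μ : ∀ j, Measure (X j)) [∀ j, SigmaFinite (μ j)]
    (f : ∀ j, X j → ℝ≥0∞) (hf : ∀ j, Measurable (f j)) :
    ∫⁻ x, ∏ j, f j (x j) ∂Measure.pi μ = ∏ j, ∫⁻ x, f j x ∂μ j := by
  classical
  by_cases hne : Nonempty (∀ j, X j)
  · obtain ⟨x0⟩ := hne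
    have hm : Measurable (fun x : ∀ j, X j => ∏ j, f j (x j)) :=
      Finset.measurable_prod _ fun j _ => (hf j).comp (measurable_pi_apply j)
    have key : ∀ s : Finset J, ∀ x : ∀ j, X j,
        (∫⋯∫⁻_s, (fun x : ∀ j, X j => ∏ j, f j (x j)) ∂μ) x
          = (∏ j ∈ s, ∫⁻ y, f j y ∂μ j) * ∏ j ∈ sᶜ, f j (x j) := by
      intro s
      induction s using Finset.induction_on with
      | empty => intro x; rw [lmarginal_empty]; simp
      | insert i s hi ih =>
        intro x
        rw [lmarginal_insert _ hm hi]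
        simp only [ih]
        have hc : sᶜ = insert i (insert i s)ᶜ := by
          ext j
          by_cases hj : j = i
          · subst hj; simp [hi]
          · simp [hj]
        have hni : i ∉ (insert i s)ᶜ := by simp
        have h1 : ∀ y : X i, ∏ j ∈ sᶜ, f j (Function.update x i y j)
            = f i y * ∏ j ∈ (insert i s)ᶜ, f j (x j) := by
          intro y
          rw [hc, Finset.prod_insert hni, Function.update_self]
          congr 1
          apply Finset.prod_congr rfl
          intro j hj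
          have : j ≠ i := by
            rintro rfl; exact hni hj
          rw [Function.update_of_ne this]
        simp only [h1]
        have h2 : Measurable (fun y : X i => f i y * ∏ j ∈ (insert i s)ᶜ, f j (x j)) :=
          (hf i).mul_const _
        rw [lintegral_const_mul _ h2, lintegral_mul_const _ (hf i), Finset.prod_insert hi]
        ring
    have := key Finset.univ x0
    rw [← lintegral_eq_lmarginal_univ] at this
    rw [this]
    simp
  · rw [not_nonempty_iff] at hne
    have h0 : ∃ j, IsEmpty (X j) := by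
      by_contra hc
      push Not at hc
      apply hne.false
      exact fun j => (hc j).some
    obtain ⟨j, hj⟩ := h0
    have h1 : ∏ j, ∫⁻ x, f j x ∂μ j = 0 := by
      apply Finset.prod_eq_zero (Finset.mem_univ j)
      rw [lintegral_of_isEmpty]
    rw [h1, lintegral_of_isEmpty]

theorem pi_withDensity {J : Type} [Fintype J] {X : J → Type}
    [∀ j, MeasurableSpace (X j)] (μ : ∀ j, Measure (X j)) [∀ j, SigmaFinite (μ j)]
    (f : ∀ j, X j → ℝ≥0∞) (hf : ∀ j, Measurable (f j)) (hft : ∀ j x, f j x ≠ ⊤) :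
    Measure.pi (fun j => (μ j).withDensity (f j)) =
      (Measure.pi μ).withDensity (fun x => ∏ j, f j (x j)) := by
  have : ∀ j, SigmaFinite ((μ j).withDensity (f j)) := fun j =>
    SigmaFinite.withDensity_of_ne_top' (hft j)
  refine (Measure.pi_eq fun s hs => ?_)
  rw [withDensity_apply _ (MeasurableSet.univ_pi hs), Measure.restrict_pi_pi,
    lintegral_pi_prod _ f hf]
  apply Finset.prod_congr rfl
  intro j _
  rw [withDensity_apply _ (hs j)]

/-- unnormalized one-dimensional weight -/
noncomputable def g1 (x : ℝ) : ℝ≥0∞ := ENNReal.ofReal (Real.exp (-x ^ 2 / 2))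

theorem continuous_exp_sq : Continuous fun x : ℝ => Real.exp (-x ^ 2 / 2) := by fun_prop

theorem measurable_g1 : Measurable g1 := ENNReal.measurable_ofReal.comp continuous_exp_sq.measurable

theorem g1_ne_top (x : ℝ) : g1 x ≠ ⊤ := ENNReal.ofReal_ne_top

theorem g1_ne_zero (x : ℝ) : g1 x ≠ 0 := by
  rw [g1, ne_eq, ENNReal.ofReal_eq_zero, not_le]
  exact Real.exp_pos _

/-- normalizing constant -/
noncomputable def c1 : ℝ≥0∞ := ENNReal.ofReal (Real.sqrt (2 * Real.pi))⁻¹

theorem gauss_eq : gaussianReal 0 1 = volume.withDensity (fun x => c1 * g1 x) := by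
  rw [gaussianReal_of_var_ne_zero 0 one_ne_zero]
  congr 1
  funext x
  rw [gaussianPDF, gaussianPDFReal, c1, g1, ← ENNReal.ofReal_mul (by positivity)]
  simp

theorem c1_ne_top : c1 ≠ ⊤ := ENNReal.ofReal_ne_top

theorem c1_ne_zero : c1 ≠ 0 := by
  rw [c1, ne_eq, ENNReal.ofReal_eq_zero, not_le]
  have := Real.pi_pos
  positivity

/-- total one-dimensional mass -/
noncomputable def z1 : ℝ≥0∞ := ∫⁻ x, g1 x

theorem c1_z1 : c1 * z1 = 1 := by
  have h : (gaussianReal 0 1) univ = 1 := measure_univ
  rw [gauss_eq, withDensity_apply _ MeasurableSet.univ, Measure.restrict_univ, lintegral_const_mul _ measurable_g1] at h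
  exact h

theorem z1_ne_top : z1 ≠ ⊤ := by
  intro h
  have := c1_z1
  rw [h, ENNReal.mul_top c1_ne_zero] at this
  exact ENNReal.top_ne_one this

theorem z1_ne_zero : z1 ≠ 0 := by
  intro h
  have := c1_z1
  rw [h, mul_zero] at this
  exact zero_ne_one this

/-- Gaussian weight on vectors -/
noncomputable def gv {n : ℕ} (x : Fin n → ℝ) : ℝ≥0∞ := ENNReal.ofReal (Real.exp (-(∑ i, x i ^ 2) / 2))

theorem gv_prod {n : ℕ} (x : Fin n → ℝ) : gv x = ∏ i, g1 (x i) := by
  unfold gv g1
  rw [← ENNReal.ofReal_prod_of_nonneg (fun i _ => (Real.exp_pos _).le), ← Real.exp_sum]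
  congr 2
  rw [neg_div, Finset.sum_div, ← Finset.sum_neg_distrib]
  apply Finset.sum_congr rfl
  intro i _
  ring

/-- Gaussian weight on matrices -/
noncomputable def gw {n : ℕ} (A : Fin n → Fin n → ℝ) : ℝ≥0∞ := ENNReal.ofReal (Real.exp (-(∑ i, ∑ j, A i j ^ 2) / 2))

theorem gw_prod {n : ℕ} (A : Fin n → Fin n → ℝ) : gw A = ∏ i, gv (A i) := by
  unfold gw gv
  rw [← ENNReal.ofReal_prod_of_nonneg (fun i _ => (Real.exp_pos _).le), ← Real.exp_sum]
  congr 2
  rw [neg_div, Finset.sum_div, ← Finset.sum_neg_distrib]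
  apply Finset.sum_congr rfl
  intro i _
  ring

theorem measurable_gv {n : ℕ} : Measurable (gv : (Fin n → ℝ) → ℝ≥0∞) := by
  apply ENNReal.measurable_ofReal.comp
  apply Continuous.measurable
  fun_prop

theorem measurable_gw {n : ℕ} : Measurable (gw : (Fin n → Fin n → ℝ) → ℝ≥0∞) := by
  apply ENNReal.measurable_ofReal.comp
  apply Continuous.measurable
  fun_prop

theorem lint_gv (n : ℕ) : ∫⁻ x : Fin n → ℝ, gv x = z1 ^ n := by
  simp only [gv_prod]
  rw [volume_pi, lintegral_pi_prod (fun _ : Fin n => (volume : Measure ℝ)) (fun _ => g1) (fun _ => measurable_g1)]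
  rw [Finset.prod_const, Finset.card_univ, Fintype.card_fin, z1]

theorem lint_gw (n : ℕ) : ∫⁻ A : Fin n → Fin n → ℝ, gw A = z1 ^ (n * n) := by
  simp only [gw_prod]
  have h := lintegral_pi_prod (fun _ : Fin n => (volume : Measure (Fin n → ℝ))) (fun _ => gv) (fun _ => measurable_gv)
  rw [volume_pi]
  rw [h]
  rw [Finset.prod_const, Finset.card_univ, Fintype.card_fin, lint_gv, pow_mul]

theorem pi_gauss (n : ℕ) : Measure.pi (fun _ : Fin n => gaussianReal 0 1) =
    (volume : Measure (Fin n → ℝ)).withDensity (fun x => c1 ^ n * gv x) := by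
  rw [gauss_eq, pi_withDensity _ _ (fun _ => measurable_g1.const_mul _) (fun _ x => ENNReal.mul_ne_top c1_ne_top (g1_ne_top x))]
  congr 1
  funext x
  rw [gv_prod, Finset.prod_mul_distrib, Finset.prod_const, Finset.card_univ, Fintype.card_fin]

theorem gv_ne_top {n : ℕ} (x : Fin n → ℝ) : gv x ≠ ⊤ := ENNReal.ofReal_ne_top

theorem pi_pi_gauss (n : ℕ) : Measure.pi (fun _ : Fin n => Measure.pi (fun _ : Fin n => gaussianReal 0 1)) =
    (volume : Measure (Fin n → Fin n → ℝ)).withDensity (fun A => c1 ^ (n * n) * gw A) := by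
  rw [pi_gauss, pi_withDensity _ _ (fun _ => measurable_gv.const_mul _)
    (fun _ x => ENNReal.mul_ne_top (ENNReal.pow_ne_top c1_ne_top) (gv_ne_top x))]
  congr 1
  funext A
  rw [gw_prod, Finset.prod_mul_distrib, Finset.prod_const, Finset.card_univ, Fintype.card_fin, pow_mul]

end Q298.Sv
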