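import Mathlib
import Pool.Agent.Q298.Sv.Ga

set_option autoImplicit false
set_option maxHeartbeats 4000000
open MeasureTheory Set ProbabilityTheory
open scoped ENNReal

namespace Q298.Sv

/-- the function whose Gaussian average is computed -/
noncomputable def hh (a x : ℝ) : ℝ := Real.exp (-(a ^ 2 / (2 * x ^ 2)))

theorem hh_pos (a x : ℝ) : 0 < hh a x := Real.exp_pos _

theorem measurable_hh (a : ℝ) : Measurable (hh a) := by
  unfold hh
  fun_prop

theorem root_id {a x u : ℝ} (hx : x ≠ 0) (h : x ^ 2 - u * x - a = 0) :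
    -x ^ 2 / 2 + -(a ^ 2 / (2 * x ^ 2)) = -a + -u ^ 2 / 2 := by
  have ha : a = x * (x - u) := by linarith [h, (by ring : x ^ 2 - u * x - a = x * (x - u) - a)]
  have h1 : a ^ 2 / (2 * x ^ 2) = (x - u) ^ 2 / 2 := by
    rw [ha]
    field_simp
  rw [h1, ha]
  ring

theorem levy0 (a : ℝ) (ha : 0 < a) :
    ENNReal.ofReal (Real.exp (-a)) * z1 ≤ ∫⁻ x, ENNReal.ofReal (Real.exp (-x ^ 2 / 2) * hh a x) := by
  set G : ℝ → ℝ≥0∞ := fun x => ENNReal.ofReal (Real.exp (-x ^ 2 / 2) * hh a x) with hG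
  set r : ℝ → ℝ := fun u => Real.sqrt (u ^ 2 + 4 * a) with hr
  have hrp : ∀ u, 0 < r u := fun u => Real.sqrt_pos.2 (by positivity)
  have hr2 : ∀ u, r u ^ 2 = u ^ 2 + 4 * a := fun u => Real.sq_sqrt (by positivity)
  have hru : ∀ u, |u| < r u := by
    intro u
    apply lt_of_pow_lt_pow_left₀ 2 (hrp u).le
    rw [hr2, sq_abs]
    linarith
  set p : ℝ → ℝ := fun u => (u + r u) / 2 with hp
  set q : ℝ → ℝ := fun u => (u - r u) / 2 with hq
  have hpp : ∀ u, 0 < p u := fun u => by
    have := hru u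
    have h2 := neg_abs_le u
    simp only [hp]; linarith
  have hqn : ∀ u, q u < 0 := fun u => by
    have := hru u
    have h2 := le_abs_self u
    simp only [hq]; linarith
  have hpe : ∀ u, p u ^ 2 - u * p u - a = 0 := fun u => by
    have := hr2 u
    simp only [hp]
    nlinarith
  have hqe : ∀ u, q u ^ 2 - u * q u - a = 0 := fun u => by
    have := hr2 u
    simp only [hq]
    nlinarith
  have hrd : ∀ u, HasDerivAt r (u / r u) u := by
    intro u
    have h1 : HasDerivAt (fun u : ℝ => u ^ 2 + 4 * a) (2 * u) u := by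
      have := (hasDerivAt_pow 2 u).add_const (4 * a)
      simpa using this
    have h2 := h1.sqrt (by positivity)
    convert h2 using 1
    simp only [hr]
    field_simp
  have hpd : ∀ u, HasDerivAt p ((1 + u / r u) / 2) u := fun u => ((hasDerivAt_id u).add (hrd u)).div_const 2
  have hqd : ∀ u, HasDerivAt q ((1 - u / r u) / 2) u := fun u => ((hasDerivAt_id u).sub (hrd u)).div_const 2
  have hur : ∀ u, |u / r u| < 1 := by
    intro u
    rw [abs_div, abs_of_pos (hrp u), div_lt_one (hrp u)]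
    exact hru u
  have hpinj : InjOn p univ := by
    intro u _ v _ huv
    have e1 := hpe u
    have e2 := hpe v
    rw [← huv] at e2
    have : (u - v) * p u = 0 := by linarith
    rcases mul_eq_zero.1 this with h | h
    · linarith
    · exact absurd h (hpp u).ne'
  have hqinj : InjOn q univ := by
    intro u _ v _ huv
    have e1 := hqe u
    have e2 := hqe v
    rw [← huv] at e2
    have : (u - v) * q u = 0 := by linarith
    rcases mul_eq_zero.1 this with h | h
    · linarith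
    · exact absurd h (hqn u).ne
  have hpim : p '' univ ⊆ Ioi 0 := by
    rintro _ ⟨u, _, rfl⟩
    exact hpp u
  have hqim : q '' univ ⊆ Iio 0 := by
    rintro _ ⟨u, _, rfl⟩
    exact hqn u
  have i1 := lintegral_image_eq_lintegral_abs_deriv_mul MeasurableSet.univ (fun u _ => (hpd u).hasDerivWithinAt) hpinj G
  have i2 := lintegral_image_eq_lintegral_abs_deriv_mul MeasurableSet.univ (fun u _ => (hqd u).hasDerivWithinAt) hqinj G
  have hGp : ∀ u, G (p u) = ENNReal.ofReal (Real.exp (-a)) * g1 u := by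
    intro u
    simp only [hG, hh, g1]
    rw [← Real.exp_add, root_id (hpp u).ne' (hpe u), Real.exp_add, ENNReal.ofReal_mul (Real.exp_pos _).le]
  have hGq : ∀ u, G (q u) = ENNReal.ofReal (Real.exp (-a)) * g1 u := by
    intro u
    simp only [hG, hh, g1]
    rw [← Real.exp_add, root_id (hqn u).ne (hqe u), Real.exp_add, ENNReal.ofReal_mul (Real.exp_pos _).le]
  simp only [hGp] at i1
  simp only [hGq] at i2
  have hsum : ∀ u, ENNReal.ofReal |(1 + u / r u) / 2| + ENNReal.ofReal |(1 - u / r u) / 2| = 1 := by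
    intro u
    have h := abs_lt.1 (hur u)
    rw [abs_of_pos (by linarith), abs_of_pos (by linarith), ← ENNReal.ofReal_add (by linarith) (by linarith)]
    rw [ENNReal.ofReal_eq_one]
    ring
  have hrm : Measurable r := by
    have : Continuous r := by simp only [hr]; fun_prop
    exact this.measurable
  have hm1 : Measurable fun u => ENNReal.ofReal |(1 + u / r u) / 2| * (ENNReal.ofReal (Real.exp (-a)) * g1 u) := by
    have h1 : Measurable fun u => (1 + u / r u) / 2 := (measurable_const.add (measurable_id.div hrm)).div_const 2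
    have h2 : Measurable fun u => |(1 + u / r u) / 2| := continuous_abs.measurable.comp h1
    exact (ENNReal.measurable_ofReal.comp h2).mul (measurable_g1.const_mul _)
  calc ENNReal.ofReal (Real.exp (-a)) * z1
      = ∫⁻ u, ENNReal.ofReal (Real.exp (-a)) * g1 u := by rw [lintegral_const_mul _ measurable_g1, z1]
    _ = ∫⁻ u, (ENNReal.ofReal |(1 + u / r u) / 2| * (ENNReal.ofReal (Real.exp (-a)) * g1 u)
          + ENNReal.ofReal |(1 - u / r u) / 2| * (ENNReal.ofReal (Real.exp (-a)) * g1 u)) := by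
        apply lintegral_congr
        intro u
        rw [← add_mul, hsum, one_mul]
    _ = (∫⁻ x in p '' univ, G x) + ∫⁻ x in q '' univ, G x := by
        rw [lintegral_add_left hm1, i1, i2, Measure.restrict_univ]
    _ ≤ (∫⁻ x in Ioi 0, G x) + ∫⁻ x in Iio 0, G x := add_le_add (lintegral_mono_set hpim) (lintegral_mono_set hqim)
    _ = ∫⁻ x in Ioi 0 ∪ Iio 0, G x := by
        rw [lintegral_union measurableSet_Iio]
        rw [Set.disjoint_left]
        intro x h1 h2
        exact lt_asymm (mem_Ioi.1 h1) (mem_Iio.1 h2)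
    _ ≤ ∫⁻ x, G x := setLIntegral_le_lintegral _ _

theorem levy0' (a : ℝ) (ha : 0 ≤ a) :
    ENNReal.ofReal (Real.exp (-a)) * z1 ≤ ∫⁻ x, ENNReal.ofReal (Real.exp (-x ^ 2 / 2) * hh a x) := by
  rcases ha.eq_or_lt with h | h
  · subst h
    simp [hh, z1, g1]
  · exact levy0 a h

theorem exists_cosh (μ : ℝ) (hμ : μ ≠ 0) : ∃ x0 : ℝ, 0 < x0 ∧ Real.exp (-μ ^ 2 / 2) * Real.cosh (μ * x0) = 1 := by
  have hc : Continuous fun x : ℝ => Real.exp (-μ ^ 2 / 2) * Real.cosh (μ * x) := by fun_prop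
  set M : ℝ := (μ ^ 2 / 2 + 1) / |μ| with hM
  have hμ' : 0 < |μ| := abs_pos.2 hμ
  have hMp : 0 < M := by positivity
  have h0 : Real.exp (-μ ^ 2 / 2) * Real.cosh (μ * 0) < 1 := by
    rw [mul_zero, Real.cosh_zero, mul_one, Real.exp_lt_one_iff]
    have : 0 < μ ^ 2 := by positivity
    linarith
  have h1 : 1 ≤ Real.exp (-μ ^ 2 / 2) * Real.cosh (μ * M) := by
    have e1 : |μ * M| = μ ^ 2 / 2 + 1 := by
      rw [abs_mul, abs_of_pos hMp, hM]
      field_simp
    rw [← Real.cosh_abs, e1, Real.cosh_eq]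
    have e2 : Real.exp (-μ ^ 2 / 2) * Real.exp (μ ^ 2 / 2 + 1) = Real.exp 1 := by
      rw [← Real.exp_add]
      congr 1
      ring
    have e3 : 2 ≤ Real.exp 1 := by
      have := Real.add_one_le_exp (1 : ℝ)
      linarith
    have e4 := mul_pos (Real.exp_pos (-μ ^ 2 / 2)) (Real.exp_pos (-(μ ^ 2 / 2 + 1)))
    calc (1 : ℝ) ≤ Real.exp 1 / 2 := by linarith
      _ = Real.exp (-μ ^ 2 / 2) * Real.exp (μ ^ 2 / 2 + 1) / 2 := by rw [e2]
      _ ≤ _ := by
        rw [mul_div_assoc', mul_add]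
        linarith
  obtain ⟨x0, hx0, hx1⟩ := intermediate_value_Icc hMp.le hc.continuousOn ⟨h0.le, h1⟩
  refine ⟨x0, ?_, hx1⟩
  rcases hx0.1.eq_or_lt with h | h
  · rw [← h] at hx1
    simp only at hx1
    linarith
  · exact h

theorem sym_id (μ x : ℝ) : Real.exp (-(x - μ) ^ 2 / 2) + Real.exp (-(x + μ) ^ 2 / 2)
    = 2 * (Real.exp (-x ^ 2 / 2) * (Real.exp (-μ ^ 2 / 2) * Real.cosh (μ * x))) := by
  rw [Real.cosh_eq]
  have e1 : Real.exp (-(x - μ) ^ 2 / 2) = Real.exp (-x ^ 2 / 2) * (Real.exp (-μ ^ 2 / 2) * Real.exp (μ * x)) := by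
    rw [← Real.exp_add, ← Real.exp_add]
    congr 1
    ring
  have e2 : Real.exp (-(x + μ) ^ 2 / 2) = Real.exp (-x ^ 2 / 2) * (Real.exp (-μ ^ 2 / 2) * Real.exp (-(μ * x))) := by
    rw [← Real.exp_add, ← Real.exp_add]
    congr 1
    ring
  rw [e1, e2]
  ring

theorem meas_shift (μ : ℝ) : Measurable fun x : ℝ => Real.exp (-(x - μ) ^ 2 / 2) := by fun_prop

/-- symmetrization -/
theorem sym_int (μ : ℝ) (h : ℝ → ℝ) (h0 : ∀ x, 0 ≤ h x) (hm : Measurable h) (he : ∀ x, h (-x) = h x) :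
    ∫⁻ x, ENNReal.ofReal (Real.exp (-(x - μ) ^ 2 / 2) * h x)
      = ∫⁻ x, ENNReal.ofReal (Real.exp (-x ^ 2 / 2) * (Real.exp (-μ ^ 2 / 2) * Real.cosh (μ * x)) * h x) := by
  have e1 : ∫⁻ x, ENNReal.ofReal (Real.exp (-(x - μ) ^ 2 / 2) * h x)
      = ∫⁻ x, ENNReal.ofReal (Real.exp (-(x + μ) ^ 2 / 2) * h x) := by
    rw [← lintegral_neg_eq_self (fun x => ENNReal.ofReal (Real.exp (-(x + μ) ^ 2 / 2) * h x))]
    apply lintegral_congr
    intro x
    rw [he]
    congr 4
    ring
  have hm1 : Measurable fun x => ENNReal.ofReal (Real.exp (-(x - μ) ^ 2 / 2) * h x) :=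
    ENNReal.measurable_ofReal.comp ((meas_shift μ).mul hm)
  have e2 : (∫⁻ x, ENNReal.ofReal (Real.exp (-(x - μ) ^ 2 / 2) * h x))
      + ∫⁻ x, ENNReal.ofReal (Real.exp (-(x - μ) ^ 2 / 2) * h x)
      = 2 * ∫⁻ x, ENNReal.ofReal (Real.exp (-x ^ 2 / 2) * (Real.exp (-μ ^ 2 / 2) * Real.cosh (μ * x)) * h x) := by
    conv_lhs => rw [e1]
    rw [← e1]
    conv_lhs => arg 2; rw [e1]
    rw [← lintegral_add_left hm1, ← lintegral_const_mul' _ _ ENNReal.ofNat_ne_top]
    apply lintegral_congr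
    intro x
    rw [← ENNReal.ofReal_add (mul_nonneg (Real.exp_pos _).le (h0 x)) (mul_nonneg (Real.exp_pos _).le (h0 x)),
      ← add_mul, sym_id]
    rw [show (2 : ℝ≥0∞) = ENNReal.ofReal 2 by simp, ← ENNReal.ofReal_mul (by norm_num)]
    congr 1
    ring
  rw [← two_mul] at e2
  exact (ENNReal.mul_right_inj two_ne_zero ENNReal.ofNat_ne_top).1 e2

theorem hh_mono {a x y : ℝ} (hx : x ≠ 0) (hxy : |x| ≤ |y|) : hh a x ≤ hh a y := by
  unfold hh
  apply Real.exp_le_exp.2
  apply neg_le_neg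
  have hx' : 0 < |x| := abs_pos.2 hx
  have h1 : 0 < x ^ 2 := by positivity
  have h2 : x ^ 2 ≤ y ^ 2 := sq_le_sq.2 hxy
  apply div_le_div_of_nonneg_left (by positivity) (by positivity)
  linarith

/-- one-dimensional Anderson plus Levy -/
theorem levy (a : ℝ) (ha : 0 ≤ a) (μ : ℝ) :
    ENNReal.ofReal (Real.exp (-a)) * z1 ≤ ∫⁻ x, ENNReal.ofReal (Real.exp (-(x - μ) ^ 2 / 2) * hh a x) := by
  refine (levy0' a ha).trans ?_
  by_cases hμ : μ = 0
  · subst hμ
    simp
  obtain ⟨x0, hx0, hx1⟩ := exists_cosh μ hμ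
  have heven : ∀ x, hh a (-x) = hh a x := by intro x; simp [hh]
  rw [sym_int μ (hh a) (fun x => (hh_pos a x).le) (measurable_hh a) heven]
  set c : ℝ → ℝ := fun x => Real.exp (-μ ^ 2 / 2) * Real.cosh (μ * x) with hc
  have hcp : ∀ x, 0 < c x := fun x => mul_pos (Real.exp_pos _) (Real.cosh_pos _)
  have hcm : Measurable c := by
    have : Continuous c := by simp only [hc]; fun_prop
    exact this.measurable
  have hc1 : ∫⁻ x, ENNReal.ofReal (Real.exp (-x ^ 2 / 2) * c x) = z1 := by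
    have h1 := sym_int μ (fun _ => 1) (fun _ => zero_le_one) measurable_const (fun _ => rfl)
    simp only [mul_one] at h1
    rw [← h1]
    exact lintegral_sub_right_eq_self (fun x => ENNReal.ofReal (Real.exp (-x ^ 2 / 2))) μ
  have hcmono : ∀ x y, |x| ≤ |y| → c x ≤ c y := by
    intro x y hxy
    simp only [hc]
    apply mul_le_mul_of_nonneg_left _ (Real.exp_pos _).le
    apply Real.cosh_le_cosh.2
    rw [abs_mul, abs_mul]
    exact mul_le_mul_of_nonneg_left hxy (abs_nonneg _)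
  have hpt : ∀ x, x ≠ 0 → Real.exp (-x ^ 2 / 2) * hh a x + hh a x0 * (Real.exp (-x ^ 2 / 2) * c x)
      ≤ Real.exp (-x ^ 2 / 2) * c x * hh a x + hh a x0 * Real.exp (-x ^ 2 / 2) := by
    intro x hx
    have hk : 0 ≤ (hh a x - hh a x0) * (c x - 1) := by
      rcases le_total |x| |x0| with h | h
      · have h1 := hh_mono (a := a) hx h
        have h2 := hcmono _ _ h
        have h3 : c x0 = 1 := hx1
        rw [h3] at h2
        exact mul_nonneg_of_nonpos_of_nonpos (by linarith) (by linarith)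
      · have h1 := hh_mono (a := a) hx0.ne' h
        have h2 := hcmono _ _ h
        have h3 : c x0 = 1 := hx1
        rw [h3] at h2
        exact mul_nonneg (by linarith) (by linarith)
    have hE := Real.exp_pos (-x ^ 2 / 2)
    nlinarith [mul_nonneg hE.le hk]
  have hme : Measurable fun x : ℝ => Real.exp (-x ^ 2 / 2) := continuous_exp_sq.measurable
  have hint : (∫⁻ x, ENNReal.ofReal (Real.exp (-x ^ 2 / 2) * hh a x)) + ENNReal.ofReal (hh a x0) * z1
      ≤ (∫⁻ x, ENNReal.ofReal (Real.exp (-x ^ 2 / 2) * c x * hh a x)) + ENNReal.ofReal (hh a x0) * z1 := by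
    have hA : Measurable fun x => ENNReal.ofReal (Real.exp (-x ^ 2 / 2) * hh a x) :=
      ENNReal.measurable_ofReal.comp (hme.mul (measurable_hh a))
    have hB : Measurable fun x => ENNReal.ofReal (Real.exp (-x ^ 2 / 2) * c x * hh a x) :=
      ENNReal.measurable_ofReal.comp ((hme.mul hcm).mul (measurable_hh a))
    calc (∫⁻ x, ENNReal.ofReal (Real.exp (-x ^ 2 / 2) * hh a x)) + ENNReal.ofReal (hh a x0) * z1
        = (∫⁻ x, ENNReal.ofReal (Real.exp (-x ^ 2 / 2) * hh a x))
          + ∫⁻ x, ENNReal.ofReal (hh a x0) * ENNReal.ofReal (Real.exp (-x ^ 2 / 2) * c x) := by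
          rw [lintegral_const_mul' _ _ ENNReal.ofReal_ne_top, hc1]
      _ = ∫⁻ x, (ENNReal.ofReal (Real.exp (-x ^ 2 / 2) * hh a x)
          + ENNReal.ofReal (hh a x0) * ENNReal.ofReal (Real.exp (-x ^ 2 / 2) * c x)) := by
          rw [lintegral_add_left hA]
      _ ≤ ∫⁻ x, (ENNReal.ofReal (Real.exp (-x ^ 2 / 2) * c x * hh a x)
          + ENNReal.ofReal (hh a x0) * ENNReal.ofReal (Real.exp (-x ^ 2 / 2))) := by
          apply lintegral_mono_ae
          have h0 : ∀ᵐ x : ℝ, x ≠ 0 := by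
            rw [ae_iff]
            simp
          filter_upwards [h0] with x hx
          have h1 := (hcp x).le
          have h2 := (hh_pos a x).le
          have h3 := (hh_pos a x0).le
          have h4 := (Real.exp_pos (-x ^ 2 / 2)).le
          rw [← ENNReal.ofReal_mul h3, ← ENNReal.ofReal_mul h3, ← ENNReal.ofReal_add (by positivity) (by positivity),
            ← ENNReal.ofReal_add (by positivity) (by positivity)]
          exact ENNReal.ofReal_le_ofReal (hpt x hx)
      _ = (∫⁻ x, ENNReal.ofReal (Real.exp (-x ^ 2 / 2) * c x * hh a x))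
          + ∫⁻ x, ENNReal.ofReal (hh a x0) * ENNReal.ofReal (Real.exp (-x ^ 2 / 2)) := by
          rw [lintegral_add_left hB]
      _ = _ := by
          rw [lintegral_const_mul' _ _ ENNReal.ofReal_ne_top]
          rfl
  exact (ENNReal.add_le_add_iff_right (ENNReal.mul_ne_top ENNReal.ofReal_ne_top z1_ne_top)).1 hint

end Q298.Sv
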