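import Mathlib
import Pool.Agent.Q298.Sv.Ha
import Pool.Agent.Q298.Sv.Le

set_option autoImplicit false
set_option maxHeartbeats 4000000
open Matrix MeasureTheory Set
open scoped ENNReal

namespace Q298.Sv

variable {n : ℕ}

/-- pairing -/
def ip (B A : MM n) : ℝ := ∑ i, ∑ j, B i j * A i j

theorem ip_add (B A A' : MM n) : ip B (A + A') = ip B A + ip B A' := by
  simp only [ip, Pi.add_apply, mul_add, Finset.sum_add_distrib]

theorem ip_smul (B : MM n) (c : ℝ) (A : MM n) : ip B (c • A) = c * ip B A := by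
  simp only [ip, Pi.smul_apply, smul_eq_mul, Finset.mul_sum]
  apply Finset.sum_congr rfl; intro i _
  apply Finset.sum_congr rfl; intro j _
  ring

theorem lm_apply (S : Matrix (Fin n) (Fin n) ℝ) (A : MM n) (i j : Fin n) : lm S A i j = ∑ k, S i k * A k j := rfl

theorem ip_lmT (B U A : MM n) : ip B (lm (Matrix.of U)ᵀ A) = ∑ i, ∑ j, B i j * ∑ k, U k i * A k j := rfl

theorem cont_ip (B : MM n) : Continuous fun p : MM n × MM n => ip B (lm (Matrix.of p.1)ᵀ p.2) := by
  simp only [ip_lmT]
  fun_prop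

theorem cont_ip2 (B A : MM n) : Continuous fun U : MM n => ip B (lm (Matrix.of U)ᵀ A) := by
  simp only [ip_lmT]
  fun_prop

theorem meas_E (B : MM n) : Measurable fun p : MM n × MM n => ENNReal.ofReal (Real.exp (ip B (lm (Matrix.of p.1)ᵀ p.2))) :=
  ENNReal.measurable_ofReal.comp (Real.continuous_exp.comp (cont_ip B)).measurable

theorem meas_E2 (B A : MM n) : Measurable fun U : MM n => ENNReal.ofReal (Real.exp (ip B (lm (Matrix.of U)ᵀ A))) :=
  ENNReal.measurable_ofReal.comp (Real.continuous_exp.comp (cont_ip2 B A)).measurable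

/-- the averaged exponential -/
noncomputable def RR (ν : Measure (MM n)) (B A : MM n) : ℝ≥0∞ :=
  ∫⁻ U, ENNReal.ofReal (Real.exp (ip B (lm (Matrix.of U)ᵀ A))) ∂ν

theorem measurable_RR (ν : Measure (MM n)) [SFinite ν] (B : MM n) : Measurable (RR ν B) :=
  (meas_E B).lintegral_prod_left'

/-- the properties of the averaging measure -/
structure Inv (ν : Measure (MM n)) : Prop where
  prob : IsProbabilityMeasure ν
  orth : ∀ᵐ U ∂ν, (Matrix.of U)ᵀ * Matrix.of U = 1
  inv : ∀ O : Matrix (Fin n) (Fin n) ℝ, Oᵀ * O = 1 → O * Oᵀ = 1 → ∀ f : MM n → ℝ≥0∞, Measurable f →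
      ∫⁻ U, f (lm O U) ∂ν = ∫⁻ U, f U ∂ν

theorem RR_lm {ν : Measure (MM n)} (hν : Inv ν) (B A : MM n) (O : Matrix (Fin n) (Fin n) ℝ) (h1 : Oᵀ * O = 1) :
    RR ν B (lm O A) = RR ν B A := by
  have h2 : O * Oᵀ = 1 := mul_eq_one_comm.1 h1
  have h := hν.inv Oᵀ (by rw [transpose_transpose]; exact h2) (by rw [transpose_transpose]; exact h1) _ (meas_E2 B A)
  rw [RR, RR, ← h]
  apply lintegral_congr
  intro U
  have : lm (Matrix.of U)ᵀ (lm O A) = lm (Matrix.of (lm Oᵀ U))ᵀ A := by
    apply of_inj
    rw [of_lm, of_lm, of_lm, of_lm, transpose_mul, transpose_transpose, Matrix.mul_assoc]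
  rw [this]

/-- `diag(s) Q` -/
def dq (Q : Matrix (Fin n) (Fin n) ℝ) (s : Fin n → ℝ) : MM n := fun i j => s i * Q i j

theorem of_dq (Q : Matrix (Fin n) (Fin n) ℝ) (s : Fin n → ℝ) : Matrix.of (dq Q s) = diagonal s * Q := by
  ext i j
  rw [diagonal_mul]
  rfl

theorem flip_eq {ν : Measure (MM n)} (hν : Inv ν) (B : MM n) (Q : Matrix (Fin n) (Fin n) ℝ) (s : Fin n → ℝ) (i : Fin n)
    (b : ℝ) : RR ν B (dq Q (Function.update s i (-b))) = RR ν B (dq Q (Function.update s i b)) := by
  classical
  set D : Matrix (Fin n) (Fin n) ℝ := diagonal (Function.update (1 : Fin n → ℝ) i (-1)) with hD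
  have hDD : Dᵀ * D = 1 := by
    rw [hD, diagonal_transpose, diagonal_mul_diagonal, ← diagonal_one]
    congr 1
    funext k
    by_cases hk : k = i
    · subst hk; simp
    · simp [hk]
  rw [← RR_lm hν B (dq Q (Function.update s i b)) D hDD]
  congr 1
  apply of_inj
  rw [of_lm, of_dq, of_dq, hD, ← Matrix.mul_assoc, diagonal_mul_diagonal]
  congr 2
  funext k
  by_cases hk : k = i
  · subst hk; simp
  · simp [hk]

theorem mono1 {ν : Measure (MM n)} (hν : Inv ν) (B : MM n) (Q : Matrix (Fin n) (Fin n) ℝ) (s : Fin n → ℝ) (i : Fin n)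
    (a b : ℝ) (ha : 0 ≤ a) (hab : a ≤ b) :
    RR ν B (dq Q (Function.update s i a)) ≤ RR ν B (dq Q (Function.update s i b)) := by
  classical
  rcases (ha.trans hab).eq_or_lt with hb | hb
  · have : a = b := le_antisymm hab (hb ▸ ha)
    rw [this]
  set l : ℝ := (a + b) / (2 * b) with hl
  have hl0 : 0 ≤ l := by positivity
  have hl1 : 0 ≤ 1 - l := by
    rw [hl, sub_nonneg, div_le_one (by positivity)]
    linarith
  have hlin : dq Q (Function.update s i a) = l • dq Q (Function.update s i b) + (1 - l) • dq Q (Function.update s i (-b)) := by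
    funext k j
    simp only [dq, Pi.add_apply, Pi.smul_apply, smul_eq_mul]
    by_cases hk : k = i
    · subst hk
      simp only [Function.update_self]
      have : l * b + (1 - l) * (-b) = a := by
        rw [hl]
        field_simp
        ring
      rw [← this]
      ring
    · simp only [Function.update_of_ne hk]
      ring
  have hpt : ∀ U : MM n, Real.exp (ip B (lm (Matrix.of U)ᵀ (dq Q (Function.update s i a))))
      ≤ l * Real.exp (ip B (lm (Matrix.of U)ᵀ (dq Q (Function.update s i b))))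
        + (1 - l) * Real.exp (ip B (lm (Matrix.of U)ᵀ (dq Q (Function.update s i (-b))))) := by
    intro U
    rw [hlin, map_add, map_smul, map_smul, ip_add, ip_smul, ip_smul]
    have := convexOn_exp.2 (mem_univ (ip B (lm (Matrix.of U)ᵀ (dq Q (Function.update s i b)))))
      (mem_univ (ip B (lm (Matrix.of U)ᵀ (dq Q (Function.update s i (-b)))))) hl0 hl1 (by ring)
    simpa using this
  calc RR ν B (dq Q (Function.update s i a))
      ≤ ∫⁻ U, (ENNReal.ofReal l * ENNReal.ofReal (Real.exp (ip B (lm (Matrix.of U)ᵀ (dq Q (Function.update s i b)))))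
          + ENNReal.ofReal (1 - l) * ENNReal.ofReal (Real.exp (ip B (lm (Matrix.of U)ᵀ (dq Q (Function.update s i (-b))))))) ∂ν := by
        apply lintegral_mono
        intro U
        simp only
        rw [← ENNReal.ofReal_mul hl0, ← ENNReal.ofReal_mul hl1,
          ← ENNReal.ofReal_add (mul_nonneg hl0 (Real.exp_pos _).le) (mul_nonneg hl1 (Real.exp_pos _).le)]
        exact ENNReal.ofReal_le_ofReal (hpt U)
    _ = ENNReal.ofReal l * RR ν B (dq Q (Function.update s i b)) + ENNReal.ofReal (1 - l) * RR ν B (dq Q (Function.update s i (-b))) := by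
        rw [lintegral_add_left ((meas_E2 B _).const_mul _), lintegral_const_mul _ (meas_E2 B _),
          lintegral_const_mul _ (meas_E2 B _)]
        rfl
    _ = RR ν B (dq Q (Function.update s i b)) := by
        rw [flip_eq hν, ← add_mul, ← ENNReal.ofReal_add hl0 hl1]
        simp

theorem mono_all {ν : Measure (MM n)} (hν : Inv ν) (B : MM n) (Q : Matrix (Fin n) (Fin n) ℝ) (s s' : Fin n → ℝ)
    (h0 : ∀ i, 0 ≤ s i) (hs : ∀ i, s i ≤ s' i) : RR ν B (dq Q s) ≤ RR ν B (dq Q s') := by
  classical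
  have key : ∀ T : Finset (Fin n), RR ν B (dq Q s) ≤ RR ν B (dq Q (T.piecewise s' s)) := by
    intro T
    induction T using Finset.induction_on with
    | empty => simp
    | insert i T hi ih =>
      refine ih.trans ?_
      rw [Finset.piecewise_insert]
      have h1 : T.piecewise s' s = Function.update (T.piecewise s' s) i (s i) := by
        conv_lhs => rw [← Function.update_eq_self i (T.piecewise s' s)]
        rw [Finset.piecewise_eq_of_notMem _ _ _ hi]
      conv_lhs => rw [h1]
      exact mono1 hν B Q _ i _ _ (h0 i) (hs i)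
  have := key Finset.univ
  simpa using this

/-- `RR` depends only on the Gram matrix -/
theorem RR_gram {ν : Measure (MM n)} (hν : Inv ν) (B A A' : MM n) (hA' : (Matrix.of A').det ≠ 0)
    (h : qq A = qq A') : RR ν B A = RR ν B A' := by
  set X := Matrix.of A with hX
  set Y := Matrix.of A' with hY
  have h1 : Xᵀ * X = Yᵀ * Y := by
    rw [hX, hY, ← toM_qq, ← toM_qq, h]
  have hYu : IsUnit Y.det := isUnit_iff_ne_zero.2 hA'
  have hYt : IsUnit Yᵀ.det := by rw [det_transpose]; exact hYu
  set O := X * Y⁻¹ with hO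
  have hOO : Oᵀ * O = 1 := by
    rw [hO, transpose_mul, transpose_nonsing_inv, Matrix.mul_assoc, ← Matrix.mul_assoc Xᵀ, h1, Matrix.mul_assoc,
      Matrix.mul_nonsing_inv _ hYu, Matrix.mul_one, Matrix.nonsing_inv_mul _ hYt]
  have h2 : A = lm O A' := by
    apply of_inj
    rw [of_lm, ← hX, ← hY, hO, Matrix.mul_assoc, Matrix.nonsing_inv_mul _ hYu, Matrix.mul_one]
  rw [h2, RR_lm hν B A' O hOO]

open Classical in
/-- a root -/
noncomputable def rt (x : EE n) : MM n := if h : x ∈ PDs n then (fun i j => (pd_root h).choose i j) else 0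

theorem rt_spec {x : EE n} (h : x ∈ PDs n) : (Matrix.of (rt x)).det ≠ 0 ∧ qq (rt x) = x := by
  have h1 : Matrix.of (rt x) = (pd_root h).choose := by
    unfold rt
    rw [dif_pos h]
    rfl
  have h2 := (pd_root h).choose_spec
  refine ⟨by rw [h1]; exact h2.1, ?_⟩
  apply toM_inj
  rw [toM_qq, h1]
  exact h2.2.symm

noncomputable def Psi (ν : Measure (MM n)) (B : MM n) (x : EE n) : ℝ≥0∞ := (PDs n).indicator (fun x => RR ν B (rt x)) x

theorem Psi_qq {ν : Measure (MM n)} (hν : Inv ν) (B A : MM n) (hA : (Matrix.of A).det ≠ 0) :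
    Psi ν B (qq A) = RR ν B A := by
  have h := qq_mem hA
  rw [Psi, indicator_of_mem h]
  exact RR_gram hν B _ _ hA (rt_spec h).2

theorem Psi_zero (ν : Measure (MM n)) (B : MM n) {x : EE n} (hx : x ∉ PDs n) : Psi ν B x = 0 := by
  rw [Psi, indicator_of_notMem hx]

theorem measurable_Psi {ν : Measure (MM n)} (hν : Inv ν) (B : MM n) : Measurable (Psi ν B) := by
  haveI := hν.prob
  have hXm : MeasurableSet {A : MM n | (Matrix.of A).det ≠ 0} :=
    (isOpen_ne_fun continuous_det_of continuous_const).measurableSet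
  haveI : StandardBorelSpace {A : MM n | (Matrix.of A).det ≠ 0} := hXm.standardBorel
  apply measurable_of_restrict_of_restrict_compl (measurableSet_PDs (n := n))
  · let f : {A : MM n | (Matrix.of A).det ≠ 0} → PDs n := fun A => ⟨qq A.1, qq_mem A.2⟩
    have hf : Measurable f := (continuous_qq.measurable.comp measurable_subtype_coe).subtype_mk
    have hs : Function.Surjective f := by
      rintro ⟨x, hx⟩
      exact ⟨⟨rt x, (rt_spec hx).1⟩, Subtype.ext (rt_spec hx).2⟩
    refine (hf.measurable_comp_iff_of_surjective hs).1 ?_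
    have h1 : Measurable fun A : {A : MM n | (Matrix.of A).det ≠ 0} => RR ν B A.1 :=
      (measurable_RR ν B).comp measurable_subtype_coe
    convert h1 using 1
    funext A
    exact Psi_qq hν B A.1 A.2
  · have : (PDs n)ᶜ.domRestrict (Psi ν B) = fun _ => 0 := by
      funext x
      exact Psi_zero ν B x.2
    rw [this]
    exact measurable_const

theorem dq_gram (Q : Matrix (Fin n) (Fin n) ℝ) (s : Fin n → ℝ) :
    (Matrix.of (dq Q s))ᵀ * Matrix.of (dq Q s) = Qᵀ * diagonal (fun i => s i * s i) * Q := by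
  rw [of_dq, transpose_mul, diagonal_transpose, Matrix.mul_assoc, ← Matrix.mul_assoc (diagonal s), diagonal_mul_diagonal,
    Matrix.mul_assoc]

/-- the shift -/
noncomputable def sh (n : ℕ) (c : ℝ) : EE n := ofM (c • (1 : Matrix (Fin n) (Fin n) ℝ))

theorem toM_sh (c : ℝ) : toM (sh n c) = c • (1 : Matrix (Fin n) (Fin n) ℝ) := by
  apply toM_ofM
  rw [transpose_smul, transpose_one]

theorem sh_mem {x : EE n} (hx : x ∈ PDs n) {c : ℝ} (hc : 0 ≤ c) : x + sh n c ∈ PDs n := by
  show (toM (x + sh n c)).PosDef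
  rw [toM_add, toM_sh]
  exact pd_add hx c hc

/-- **monotonicity** -/
theorem Psi_mono {ν : Measure (MM n)} (hν : Inv ν) (B : MM n) (x : EE n) (c : ℝ) (hc : 0 ≤ c) (hx : x ∈ PDs n) :
    Psi ν B x ≤ Psi ν B (x + sh n c) := by
  obtain ⟨Q, w, h1, h2, hw, hxQ⟩ := pd_diag hx
  set s : Fin n → ℝ := fun i => Real.sqrt (w i) with hs
  set s' : Fin n → ℝ := fun i => Real.sqrt (w i + c) with hs'
  have hdet : ∀ s : Fin n → ℝ, (∀ i, s i ≠ 0) → (Matrix.of (dq Qᵀ s)).det ≠ 0 := by
    intro s hs
    rw [of_dq, det_mul, det_diagonal]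
    apply mul_ne_zero (Finset.prod_ne_zero_iff.2 fun i _ => hs i)
    rw [det_transpose]
    intro h
    have := congrArg det h1
    rw [det_mul, h, mul_zero, det_one] at this
    exact zero_ne_one this
  have e1 : qq (dq Qᵀ s) = x := by
    apply toM_inj
    rw [toM_qq, dq_gram, transpose_transpose, hxQ]
    congr 3
    funext i
    exact Real.mul_self_sqrt (hw i).le
  have e2 : qq (dq Qᵀ s') = x + sh n c := by
    apply toM_inj
    rw [toM_qq, dq_gram, transpose_transpose, toM_add, toM_sh, hxQ]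
    have : (fun i => s' i * s' i) = fun i => w i + c := by
      funext i
      exact Real.mul_self_sqrt (add_nonneg (hw i).le hc)
    rw [this]
    have h3 : diagonal (fun i => w i + c) = diagonal w + c • (1 : Matrix (Fin n) (Fin n) ℝ) := by
      ext i j
      by_cases hij : i = j
      · subst hij; simp
      · simp [hij]
    rw [h3, Matrix.mul_add, Matrix.add_mul, Matrix.mul_smul, Matrix.smul_mul, Matrix.mul_one, h2]
  have d1 := hdet s (fun i => (Real.sqrt_pos.2 (hw i)).ne')
  have d2 := hdet s' (fun i => (Real.sqrt_pos.2 (add_pos_of_pos_of_nonneg (hw i) hc)).ne')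
  rw [← e2]
  conv_lhs => rw [← e1]
  rw [Psi_qq hν B _ d1, Psi_qq hν B _ d2]
  apply mono_all hν B Qᵀ s s' (fun i => Real.sqrt_nonneg _)
  intro i
  exact Real.sqrt_le_sqrt (by linarith)

end Q298.Sv
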