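import Mathlib
import Pool.Agent.Q298.Sv.Mo

set_option autoImplicit false
set_option maxHeartbeats 4000000
open Matrix MeasureTheory Set
open scoped ENNReal

namespace Q298.Sv

variable {n : ℕ}

/-- trace -/
def trx (x : EE n) : ℝ := ∑ i, x s(i, i)

noncomputable def ge (x : EE n) : ℝ≥0∞ := ENNReal.ofReal (Real.exp (-trx x / 2))

theorem measurable_ge : Measurable (ge : EE n → ℝ≥0∞) := by
  apply ENNReal.measurable_ofReal.comp
  apply Continuous.measurable
  unfold trx
  fun_prop

theorem trx_qq (A : MM n) : trx (qq A) = ∑ i, ∑ j, A i j ^ 2 := by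
  unfold trx
  simp only [qq_apply]
  rw [Finset.sum_comm]
  apply Finset.sum_congr rfl; intro i _
  apply Finset.sum_congr rfl; intro j _
  ring

theorem gw_qq (A : MM n) : gw A = ge (qq A) := by
  rw [ge, trx_qq, gw]

theorem trx_sh (x : EE n) (c : ℝ) : trx (x + sh n c) = trx x + n * c := by
  have h : ∀ i : Fin n, sh n c s(i, i) = c := by
    intro i
    have : sh n c s(i, i) = toM (sh n c) i i := rfl
    rw [this, toM_sh]
    simp
  unfold trx
  simp only [Pi.add_apply, h, Finset.sum_add_distrib]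
  simp

theorem ge_sh (x : EE n) (c : ℝ) : ge (x + sh n c) = ENNReal.ofReal (Real.exp (-(n * c) / 2)) * ge x := by
  unfold ge
  rw [trx_sh, ← ENNReal.ofReal_mul (Real.exp_pos _).le, ← Real.exp_add]
  congr 2
  ring

theorem qq_orth (O : Matrix (Fin n) (Fin n) ℝ) (h1 : Oᵀ * O = 1) (A : MM n) : qq (lm O A) = qq A := by
  apply toM_inj
  rw [toM_qq, toM_qq, of_lm, transpose_mul, Matrix.mul_assoc, ← Matrix.mul_assoc Oᵀ, h1, Matrix.one_mul]

theorem orth_det {O : Matrix (Fin n) (Fin n) ℝ} (h1 : Oᵀ * O = 1) : |O.det| = 1 := by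
  have := congrArg det h1
  rw [det_mul, det_transpose, det_one] at this
  have h2 : |O.det| * |O.det| = 1 := by rw [← abs_mul, this, abs_one]
  have h3 := abs_nonneg O.det
  nlinarith [mul_self_eq_one_iff.1 h2]

theorem lint_orth {O : Matrix (Fin n) (Fin n) ℝ} (h1 : Oᵀ * O = 1) (f : MM n → ℝ≥0∞) (hf : Measurable f) :
    ∫⁻ A, f (lm O A) = ∫⁻ A, f A := by
  have h := orth_det h1
  have h0 : O.det ≠ 0 := by
    intro h2
    rw [h2, abs_zero] at h
    exact zero_ne_one h
  rw [lint_lm O h0 f hf, h]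
  simp

theorem cont_ip0 (B : MM n) : Continuous fun A : MM n => ip B A := by
  unfold ip
  fun_prop

/-- **averaging** -/
theorem avg {ν : Measure (MM n)} (hν : Inv ν) (B : MM n) (h : EE n → ℝ≥0∞) (hm : Measurable h) :
    ∫⁻ A : MM n, gw A * ENNReal.ofReal (Real.exp (ip B A)) * h (qq A) = ∫⁻ A : MM n, gw A * RR ν B A * h (qq A) := by
  haveI := hν.prob
  set F : MM n → ℝ≥0∞ := fun A => gw A * ENNReal.ofReal (Real.exp (ip B A)) * h (qq A) with hF
  have hmq : Measurable fun A : MM n => h (qq A) := hm.comp continuous_qq.measurable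
  have hFm : Measurable F :=
    (measurable_gw.mul (ENNReal.measurable_ofReal.comp (Real.continuous_exp.comp (cont_ip0 B)).measurable)).mul hmq
  have h1 : ∀ᵐ U ∂ν, ∫⁻ A, gw A * ENNReal.ofReal (Real.exp (ip B (lm (Matrix.of U)ᵀ A))) * h (qq A) = ∫⁻ A, F A := by
    filter_upwards [hν.orth] with U hU
    have hU2 : ((Matrix.of U)ᵀ)ᵀ * (Matrix.of U)ᵀ = 1 := by
      rw [transpose_transpose]
      exact mul_eq_one_comm.1 hU
    rw [← lint_orth hU2 F hFm]
    apply lintegral_congr
    intro A
    simp only [hF]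
    rw [qq_orth _ hU2, gw_qq, gw_qq, qq_orth _ hU2]
  have h2 : ∫⁻ U, (∫⁻ A, gw A * ENNReal.ofReal (Real.exp (ip B (lm (Matrix.of U)ᵀ A))) * h (qq A)) ∂ν = ∫⁻ A, F A := by
    rw [lintegral_congr_ae h1, lintegral_const, measure_univ, mul_one]
  rw [← h2]
  have hm2 : Measurable fun p : MM n × MM n => gw p.2 * ENNReal.ofReal (Real.exp (ip B (lm (Matrix.of p.1)ᵀ p.2))) * h (qq p.2) :=
    ((measurable_gw.comp measurable_snd).mul (meas_E B)).mul (hmq.comp measurable_snd)
  rw [lintegral_lintegral_swap hm2.aemeasurable]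
  apply lintegral_congr
  intro A
  have h3 : ∀ U : MM n, gw A * ENNReal.ofReal (Real.exp (ip B (lm (Matrix.of U)ᵀ A))) * h (qq A)
      = (gw A * h (qq A)) * ENNReal.ofReal (Real.exp (ip B (lm (Matrix.of U)ᵀ A))) := by
    intro U
    ring
  simp only [h3]
  rw [lintegral_const_mul _ (meas_E2 B A)]
  have : ∫⁻ U, ENNReal.ofReal (Real.exp (ip B (lm (Matrix.of U)ᵀ A))) ∂ν = RR ν B A := rfl
  rw [this]
  ring

/-! ### the volume constant -/

theorem vol_top : volume (PDs n ∩ Bd n) ≠ ⊤ := by
  apply ne_top_of_le_ne_top (b := volume (Metric.closedBall (0 : EE n) 2))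
  · exact measure_closedBall_lt_top.ne
  · apply measure_mono
    rintro x ⟨_, hx⟩
    rw [mem_closedBall_zero_iff, pi_norm_le_iff_of_nonneg (by norm_num)]
    exact hx

theorem vol_pos : volume (PDs n ∩ Bd n) ≠ 0 := by
  set ε : ℝ := 1 / (2 * (n + 1)) with hε
  have hεp : 0 < ε := by positivity
  have hε1 : ε ≤ 1 / 2 := by
    rw [hε]
    apply div_le_div_of_nonneg_left (by norm_num) (by norm_num)
    have : (0 : ℝ) ≤ n := Nat.cast_nonneg n
    linarith
  have hεn : ε * n ≤ 1 / 2 := by
    rw [hε]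
    have : (0 : ℝ) ≤ n := Nat.cast_nonneg n
    rw [div_mul_eq_mul_div, one_mul, div_le_div_iff₀ (by positivity) (by norm_num)]
    linarith
  have hsub : Metric.ball (ofM (1 : Matrix (Fin n) (Fin n) ℝ)) ε ⊆ PDs n ∩ Bd n := by
    intro x hx
    rw [Metric.mem_ball, dist_pi_lt_iff hεp] at hx
    have hone : ∀ i j : Fin n, ofM (1 : Matrix (Fin n) (Fin n) ℝ) s(i, j) = (1 : Matrix (Fin n) (Fin n) ℝ) i j := by
      intro i j
      have : ofM (1 : Matrix (Fin n) (Fin n) ℝ) s(i, j) = toM (ofM (1 : Matrix (Fin n) (Fin n) ℝ)) i j := rfl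
      rw [this, toM_ofM _ transpose_one]
    have hx2 : ∀ i j : Fin n, |x s(i, j) - (1 : Matrix (Fin n) (Fin n) ℝ) i j| < ε := by
      intro i j
      have := hx s(i, j)
      rwa [Real.dist_eq, hone] at this
    constructor
    · show (toM x).PosDef
      apply PosDef.of_dotProduct_mulVec_pos
      · rw [IsHermitian, conjTranspose_eq_transpose_of_trivial, toM_symm]
      · intro v hv
        rw [star_trivial]
        have hv2 : 0 < ∑ i, v i ^ 2 := by
          apply Finset.sum_pos'
          · intro i _; positivity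
          · obtain ⟨i, hi⟩ := Function.ne_iff.1 hv
            refine ⟨i, Finset.mem_univ _, ?_⟩
            have : v i ≠ 0 := hi
            positivity
        have e1 : v ⬝ᵥ (toM x *ᵥ v) = ∑ i, ∑ j, v i * x s(i, j) * v j := by
          simp only [dotProduct, mulVec, toM_apply, Finset.mul_sum]
          apply Finset.sum_congr rfl; intro i _
          apply Finset.sum_congr rfl; intro j _
          ring
        have e2 : ∑ i, v i ^ 2 = ∑ i, ∑ j, v i * (1 : Matrix (Fin n) (Fin n) ℝ) i j * v j := by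
          apply Finset.sum_congr rfl
          intro i _
          rw [Finset.sum_eq_single i]
          · simp; ring
          · intro j _ hj
            rw [Matrix.one_apply_ne (Ne.symm hj)]
            ring
          · simp
        have e3 : (∑ i, v i ^ 2) - v ⬝ᵥ (toM x *ᵥ v) ≤ ε * (∑ i, |v i|) ^ 2 := by
          rw [e1, e2, ← Finset.sum_sub_distrib, sq, Finset.sum_mul_sum, Finset.mul_sum]
          apply Finset.sum_le_sum
          intro i _
          rw [← Finset.sum_sub_distrib, Finset.mul_sum]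
          apply Finset.sum_le_sum
          intro j _
          have h1 := (hx2 i j).le
          calc v i * (1 : Matrix (Fin n) (Fin n) ℝ) i j * v j - v i * x s(i, j) * v j
              = -(v i * v j) * (x s(i, j) - (1 : Matrix (Fin n) (Fin n) ℝ) i j) := by ring
            _ ≤ |-(v i * v j) * (x s(i, j) - (1 : Matrix (Fin n) (Fin n) ℝ) i j)| := le_abs_self _
            _ = |v i| * |v j| * |x s(i, j) - (1 : Matrix (Fin n) (Fin n) ℝ) i j| := by
                rw [abs_mul, abs_neg, abs_mul]
            _ ≤ |v i| * |v j| * ε := mul_le_mul_of_nonneg_left h1 (by positivity)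
            _ = _ := by ring
        have e4 : (∑ i, |v i|) ^ 2 ≤ n * ∑ i, v i ^ 2 := by
          have := sq_sum_le_card_mul_sum_sq (s := Finset.univ) (f := fun i : Fin n => |v i|)
          simpa using this
        have e5 : ε * (∑ i, |v i|) ^ 2 ≤ (1 / 2) * ∑ i, v i ^ 2 := by
          calc ε * (∑ i, |v i|) ^ 2 ≤ ε * (n * ∑ i, v i ^ 2) := mul_le_mul_of_nonneg_left e4 hεp.le
            _ = (ε * n) * ∑ i, v i ^ 2 := by ring
            _ ≤ _ := mul_le_mul_of_nonneg_right hεn hv2.le
        linarith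
    · intro s
      induction s using Sym2.ind with
      | _ i j =>
        have h1 := hx2 i j
        have h2 : |(1 : Matrix (Fin n) (Fin n) ℝ) i j| ≤ 1 := by
          by_cases hij : i = j
          · subst hij; simp
          · simp [hij]
        have h3 := abs_sub_abs_le_abs_sub (x s(i, j)) ((1 : Matrix (Fin n) (Fin n) ℝ) i j)
        linarith
  have := (Metric.measure_ball_pos volume (ofM (1 : Matrix (Fin n) (Fin n) ℝ)) hεp)
  exact (this.trans_le (measure_mono hsub)).ne'

/-! ### comparison -/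

/-- indicator of `x - c ∈ PDs` -/
noncomputable def dn (c : ℝ) (x : EE n) : ℝ≥0∞ := {x : EE n | x - sh n c ∈ PDs n}.indicator (fun _ => 1) x

theorem measurableSet_dn (c : ℝ) : MeasurableSet {x : EE n | x - sh n c ∈ PDs n} := by
  have : Measurable fun x : EE n => x - sh n c := measurable_id.sub_const _
  exact this measurableSet_PDs

theorem measurable_dn (c : ℝ) : Measurable (dn c : EE n → ℝ≥0∞) := measurable_const.indicator (measurableSet_dn c)

noncomputable def rho (c : ℝ) (x : EE n) : ℝ≥0∞ := ENNReal.ofReal (rr x / rr (x + sh n c))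

theorem measurable_rho (c : ℝ) : Measurable (rho c : EE n → ℝ≥0∞) := by
  apply ENNReal.measurable_ofReal.comp
  apply continuous_rr.measurable.div
  exact continuous_rr.measurable.comp (measurable_id.add_const _)

theorem comp_ineq {ν : Measure (MM n)} (hν : Inv ν) (B : MM n) (c : ℝ) (hc : 0 ≤ c) :
    ENNReal.ofReal (Real.exp (-(n * c) / 2)) * ∫⁻ A : MM n, gw A * RR ν B A * rho c (qq A)
      ≤ ∫⁻ A : MM n, gw A * RR ν B A * dn c (qq A) := by
  set κ : ℝ≥0∞ := ENNReal.ofReal (Real.exp (-(n * c) / 2)) with hκ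
  set f1 : EE n → ℝ≥0∞ := fun x => ge x * Psi ν B x * dn c x with hf1
  set f2 : EE n → ℝ≥0∞ := fun x => ge x * Psi ν B x * rho c x with hf2
  have hm1 : Measurable f1 := (measurable_ge.mul (measurable_Psi hν B)).mul (measurable_dn c)
  have hm2 : Measurable f2 := (measurable_ge.mul (measurable_Psi hν B)).mul (measurable_rho c)
  have hs1 : ∀ x, x ∉ PDs n → f1 x = 0 := fun x hx => by
    simp only [hf1]
    rw [Psi_zero ν B hx, mul_zero, zero_mul]
  have hs2 : ∀ x, x ∉ PDs n → f2 x = 0 := fun x hx => by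
    simp only [hf2]
    rw [Psi_zero ν B hx, mul_zero, zero_mul]
  have e1 : ∫⁻ A : MM n, gw A * RR ν B A * dn c (qq A) = ∫⁻ A : MM n, f1 (qq A) := by
    apply lintegral_congr_ae
    filter_upwards [det_ae] with A hA
    simp only [hf1]
    rw [Psi_qq hν B A hA, gw_qq]
  have e2 : ∫⁻ A : MM n, gw A * RR ν B A * rho c (qq A) = ∫⁻ A : MM n, f2 (qq A) := by
    apply lintegral_congr_ae
    filter_upwards [det_ae] with A hA
    simp only [hf2]
    rw [Psi_qq hν B A hA, gw_qq]
  rw [e1, e2]
  have g1 := gram_formula f1 hm1 hs1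
  have g2 := gram_formula f2 hm2 hs2
  have hv0 : volume (PDs n ∩ Bd n) ≠ 0 := vol_pos
  have hvt : volume (PDs n ∩ Bd n) ≠ ⊤ := vol_top
  rw [← ENNReal.mul_le_mul_iff_left hv0 hvt, mul_assoc, g1, g2, ← mul_assoc]
  gcongr
  have hmf2 : Measurable fun y : EE n => f2 y * ENNReal.ofReal (rr y)⁻¹ :=
    hm2.mul (ENNReal.measurable_ofReal.comp continuous_rr.measurable.inv)
  rw [← lintegral_const_mul _ hmf2, ← lintegral_add_right_eq_self (fun y : EE n => f1 y * ENNReal.ofReal (rr y)⁻¹) (sh n c)]
  apply lintegral_mono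
  intro y
  simp only
  by_cases hy : y ∈ PDs n
  · have hy2 := sh_mem hy hc
    have r1 := rr_pos hy
    have r2 := rr_pos hy2
    have d1 : dn c (y + sh n c) = 1 := by
      unfold dn
      rw [indicator_of_mem]
      show y + sh n c - sh n c ∈ PDs n
      rw [add_sub_cancel_right]
      exact hy
    have d2 : rho c y * ENNReal.ofReal (rr y)⁻¹ = ENNReal.ofReal (rr (y + sh n c))⁻¹ := by
      unfold rho
      rw [← ENNReal.ofReal_mul (by positivity)]
      congr 1
      field_simp
    simp only [hf1, hf2]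
    rw [d1, mul_one, ge_sh]
    calc κ * (ge y * Psi ν B y * rho c y * ENNReal.ofReal (rr y)⁻¹)
        = κ * ge y * Psi ν B y * (rho c y * ENNReal.ofReal (rr y)⁻¹) := by ring
      _ = κ * ge y * Psi ν B y * ENNReal.ofReal (rr (y + sh n c))⁻¹ := by rw [d2]
      _ ≤ κ * ge y * Psi ν B (y + sh n c) * ENNReal.ofReal (rr (y + sh n c))⁻¹ := by
          gcongr
          exact Psi_mono hν B y c hc hy
  · rw [hs2 y hy]
    simp

end Q298.Sv
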