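import Mathlib
import Pool.Agent.Q298.Sv.Av

set_option autoImplicit false
set_option maxHeartbeats 4000000
open Matrix MeasureTheory Set ProbabilityTheory
open scoped ENNReal

namespace Q298.Sv

variable {n : ℕ}

/-- squared norm -/
def qn (x : Fin n → ℝ) : ℝ := ∑ i, x i ^ 2

theorem qn_nonneg (x : Fin n → ℝ) : 0 ≤ qn x := Finset.sum_nonneg fun i _ => sq_nonneg _

theorem qn_dot (x : Fin n → ℝ) : qn x = x ⬝ᵥ x := by
  unfold qn dotProduct
  apply Finset.sum_congr rfl; intro i _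
  ring

theorem qn_smul (c : ℝ) (x : Fin n → ℝ) : qn (c • x) = c ^ 2 * qn x := by
  unfold qn
  rw [Finset.mul_sum]
  apply Finset.sum_congr rfl; intro i _
  simp only [Pi.smul_apply, smul_eq_mul]
  ring

theorem dot_gram (S : Matrix (Fin n) (Fin n) ℝ) (x y : Fin n → ℝ) :
    (S *ᵥ x) ⬝ᵥ (S *ᵥ y) = x ⬝ᵥ ((Sᵀ * S) *ᵥ y) := by
  rw [← mulVec_mulVec, dotProduct_mulVec x Sᵀ, vecMul_transpose]

theorem qn_orth {O : Matrix (Fin n) (Fin n) ℝ} (h1 : Oᵀ * O = 1) (x : Fin n → ℝ) : qn (O *ᵥ x) = qn x := by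
  rw [qn_dot, qn_dot, dot_gram, h1, one_mulVec]

theorem gv_qn (x : Fin n → ℝ) : gv x = ENNReal.ofReal (Real.exp (-qn x / 2)) := rfl

theorem qn_pos {x : Fin n → ℝ} (hx : x ≠ 0) : 0 < qn x := by
  apply Finset.sum_pos'
  · intro i _; positivity
  · obtain ⟨i, hi⟩ := Function.ne_iff.1 hx
    refine ⟨i, Finset.mem_univ _, ?_⟩
    have : x i ≠ 0 := hi
    positivity

theorem continuous_qn : Continuous (qn : (Fin n → ℝ) → ℝ) := by
  unfold qn
  fun_prop

/-- rotation of a unit vector to the first coordinate vector -/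
theorem exists_rot {m : ℕ} (ν : Fin (m + 1) → ℝ) (hν : qn ν = 1) :
    ∃ O : Matrix (Fin (m + 1)) (Fin (m + 1)) ℝ, Oᵀ * O = 1 ∧ O *ᵥ ν = Pi.single 0 1 := by
  by_cases h : ν = Pi.single 0 1
  · refine ⟨1, by simp, ?_⟩
    rw [one_mulVec, h]
  · set u : Fin (m + 1) → ℝ := ν - Pi.single 0 1 with hu
    have hu0 : u ≠ 0 := sub_ne_zero.2 h
    have hup := qn_pos hu0
    have hνe : ν ⬝ᵥ (Pi.single 0 1 : Fin (m + 1) → ℝ) = ν 0 := by simp
    have hee : (Pi.single 0 1 : Fin (m + 1) → ℝ) ⬝ᵥ (Pi.single 0 1 : Fin (m + 1) → ℝ) = 1 := by simp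
    have hen : (Pi.single 0 1 : Fin (m + 1) → ℝ) ⬝ᵥ ν = ν 0 := by simp
    have huu : qn u = 2 - 2 * ν 0 := by
      rw [qn_dot, hu, sub_dotProduct, dotProduct_sub, dotProduct_sub, hνe, hee, hen, ← qn_dot, hν]
      ring
    have huν : u ⬝ᵥ ν = 1 - ν 0 := by
      rw [hu, sub_dotProduct, hen, ← qn_dot, hν]
    set O : Matrix (Fin (m + 1)) (Fin (m + 1)) ℝ := 1 - (2 / qn u) • vecMulVec u u with hO
    have hOT : Oᵀ = O := by
      rw [hO, transpose_sub, transpose_one, transpose_smul]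
      congr 2
      ext i j
      simp [vecMulVec_apply, mul_comm]
    have hvv : vecMulVec u u * vecMulVec u u = qn u • vecMulVec u u := by
      ext i j
      rw [mul_apply, Matrix.smul_apply, smul_eq_mul, qn, Finset.sum_mul]
      apply Finset.sum_congr rfl; intro k _
      simp only [vecMulVec_apply]
      ring
    refine ⟨O, ?_, ?_⟩
    · rw [hOT, hO, sub_mul, mul_sub, mul_sub, Matrix.one_mul, Matrix.mul_one, Matrix.one_mul, Matrix.smul_mul, Matrix.mul_smul,
        hvv, smul_smul, smul_smul]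
      have : 2 / qn u * (2 / qn u) * qn u = 2 * (2 / qn u) := by field_simp
      rw [this, two_mul, add_smul]
      abel
    · funext i
      have e1 : (O *ᵥ ν) i = ν i - 2 / qn u * (u i * (u ⬝ᵥ ν)) := by
        rw [hO, sub_mulVec, one_mulVec, smul_mulVec, Pi.sub_apply, Pi.smul_apply, smul_eq_mul]
        congr 2
        simp only [mulVec, dotProduct, vecMulVec_apply, Finset.mul_sum]
        apply Finset.sum_congr rfl; intro k _
        ring
      have h2 : (1 - ν 0) ≠ 0 := by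
        intro h3
        rw [huu] at hup
        linarith
      have h4 : 2 / qn u * (u i * (u ⬝ᵥ ν)) = u i := by
        rw [huν, huu, show 2 - 2 * ν 0 = 2 * (1 - ν 0) by ring]
        field_simp
      rw [e1, h4, hu]
      simp

theorem lint_vec (S : Matrix (Fin n) (Fin n) ℝ) (hS : S.det ≠ 0) (f : (Fin n → ℝ) → ℝ≥0∞) (hf : Measurable f) :
    ∫⁻ x, f (S *ᵥ x) = ENNReal.ofReal (|S.det|⁻¹) * ∫⁻ x, f x := by
  have h := lint_linear volume (Matrix.toLin' S) (by rw [LinearMap.det_toLin']; exact hS) f hf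
  rw [LinearMap.det_toLin'] at h
  simpa using h

theorem row_int (m : ℕ) (b ν : Fin (m + 1) → ℝ) (hν : qn ν = 1) (a : ℝ) (ha : 0 ≤ a) :
    ENNReal.ofReal (Real.exp (-a)) * z1 ^ (m + 1)
      ≤ ∫⁻ x : Fin (m + 1) → ℝ, gv (x - b) * ENNReal.ofReal (hh a (ν ⬝ᵥ x)) := by
  obtain ⟨O, h1, h2⟩ := exists_rot ν hν
  have h3 : O * Oᵀ = 1 := mul_eq_one_comm.1 h1
  have hT : (Oᵀ)ᵀ * Oᵀ = 1 := by rw [transpose_transpose]; exact h3
  have hd := orth_det hT
  have hd0 : (Oᵀ).det ≠ 0 := by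
    intro h
    rw [h, abs_zero] at hd
    exact zero_ne_one hd
  set b' := O *ᵥ b with hb'
  have hmH : Measurable fun x : Fin (m + 1) → ℝ => gv (x - b) * ENNReal.ofReal (hh a (ν ⬝ᵥ x)) := by
    have i1 : Continuous fun x : Fin (m + 1) → ℝ => ν ⬝ᵥ x := by
      simp only [dotProduct]
      fun_prop
    exact (measurable_gv.comp (measurable_id.sub_const b)).mul
      (ENNReal.measurable_ofReal.comp ((measurable_hh a).comp i1.measurable))
  have e0 := lint_vec Oᵀ hd0 _ hmH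
  rw [hd, inv_one, ENNReal.ofReal_one, one_mul] at e0
  rw [← e0]
  set F : Fin (m + 1) → ℝ → ℝ≥0∞ := fun j s =>
    if j = 0 then ENNReal.ofReal (Real.exp (-(s - b' 0) ^ 2 / 2) * hh a s) else g1 (s - b' j) with hF
  have e1 : ∀ y : Fin (m + 1) → ℝ, gv (Oᵀ *ᵥ y - b) * ENNReal.ofReal (hh a (ν ⬝ᵥ (Oᵀ *ᵥ y))) = ∏ j, F j (y j) := by
    intro y
    have f1 : Oᵀ *ᵥ y - b = Oᵀ *ᵥ (y - b') := by
      rw [mulVec_sub, hb', mulVec_mulVec, h1, one_mulVec]
    have f2 : ν ⬝ᵥ (Oᵀ *ᵥ y) = y 0 := by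
      rw [dotProduct_mulVec, vecMul_transpose, h2]
      simp
    have f3 : gv (Oᵀ *ᵥ y - b) = gv (y - b') := by
      rw [gv_qn, gv_qn, f1, qn_orth hT]
    rw [f2, f3, gv_prod, Fin.prod_univ_succ, Fin.prod_univ_succ]
    simp only [hF, Fin.succ_ne_zero, if_true, if_false, Pi.sub_apply]
    rw [ENNReal.ofReal_mul (Real.exp_pos _).le]
    unfold g1
    ring
  simp only [e1]
  have hFm : ∀ j, Measurable (F j) := by
    intro j
    simp only [hF]
    by_cases hj : j = 0
    · simp only [hj, if_true]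
      exact ENNReal.measurable_ofReal.comp ((meas_shift _).mul (measurable_hh a))
    · simp only [hj, if_false]
      exact measurable_g1.comp (measurable_id.sub_const _)
  have h5 := lintegral_pi_prod (fun _ : Fin (m + 1) => (volume : Measure ℝ)) F hFm
  rw [volume_pi, h5, Fin.prod_univ_succ, pow_succ', ← mul_assoc]
  have h6 : ∀ j : Fin m, ∫⁻ x, F j.succ x = z1 := by
    intro j
    simp only [hF, Fin.succ_ne_zero, if_false]
    exact lintegral_sub_right_eq_self g1 _
  rw [Finset.prod_congr rfl (fun j _ => h6 j), Finset.prod_const, Finset.card_univ, Fintype.card_fin]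
  gcongr
  simp only [hF, if_true]
  exact levy a ha (b' 0)

theorem col_bound {m : ℕ} (A : MM (m + 1)) (ν : Fin (m + 1) → ℝ) (hν : qn ν = 1)
    (h : ∀ j : Fin m, ν ⬝ᵥ A j.succ = 0) (a : ℝ) :
    hh a (ν ⬝ᵥ A 0) ≤ Real.exp (-(a ^ 2 * qn ((Matrix.of A)⁻¹ *ᵥ Pi.single 0 1)) / 2) := by
  by_cases hA : (Matrix.of A).det = 0
  · have : (Matrix.of A)⁻¹ = 0 := nonsing_inv_apply_not_isUnit _ (by rw [hA]; simp)
    rw [this, zero_mulVec]
    have h0 : qn (0 : Fin (m + 1) → ℝ) = 0 := by simp [qn]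
    rw [h0]
    unfold hh
    apply Real.exp_le_exp.2
    have : 0 ≤ a ^ 2 / (2 * (ν ⬝ᵥ A 0) ^ 2) := by positivity
    simp only [mul_zero, neg_zero, zero_div]
    linarith
  · have hu : IsUnit (Matrix.of A).det := isUnit_iff_ne_zero.2 hA
    set y := ν ⬝ᵥ A 0 with hy
    set c := (Matrix.of A)⁻¹ *ᵥ (Pi.single 0 1 : Fin (m + 1) → ℝ) with hc
    have e1 : (Matrix.of A) *ᵥ ν = y • (Pi.single 0 1 : Fin (m + 1) → ℝ) := by
      funext i
      refine Fin.cases ?_ (fun j => ?_) i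
      · simp only [mulVec, of_apply, Pi.smul_apply, Pi.single_eq_same, smul_eq_mul, mul_one]
        rw [hy]
        exact dotProduct_comm _ _
      · simp only [mulVec, of_apply, Pi.smul_apply, smul_eq_mul]
        rw [Pi.single_eq_of_ne (Fin.succ_ne_zero j), mul_zero, ← h j]
        exact dotProduct_comm _ _
    have e2 : ν = y • c := by
      rw [hc, ← mulVec_smul, ← e1, mulVec_mulVec, Matrix.nonsing_inv_mul _ hu, one_mulVec]
    have e3 : 1 = y ^ 2 * qn c := by
      rw [← qn_smul, ← e2, hν]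
    have hy0 : y ≠ 0 := by
      intro h0
      rw [h0] at e3
      simp at e3
    have e4 : qn c = 1 / y ^ 2 := by
      field_simp
      linarith
    rw [e4]
    unfold hh
    apply le_of_eq
    congr 1
    field_simp

theorem exists_normal {m : ℕ} (A : MM (m + 1)) : ∃ ν : Fin (m + 1) → ℝ, qn ν = 1 ∧ ∀ j : Fin m, ν ⬝ᵥ A j.succ = 0 := by
  have hd : (Matrix.of (Function.update A 0 0)).det = 0 := by
    apply det_eq_zero_of_row_eq_zero 0
    intro j
    simp
  obtain ⟨v, hv0, hv⟩ := Matrix.exists_mulVec_eq_zero_iff.2 hd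
  have hp := qn_pos hv0
  refine ⟨(Real.sqrt (qn v))⁻¹ • v, ?_, ?_⟩
  · rw [qn_smul, inv_pow, Real.sq_sqrt hp.le]
    field_simp
  · intro j
    have := congrFun hv j.succ
    simp only [mulVec, of_apply, Function.update_of_ne (Fin.succ_ne_zero j), Pi.zero_apply] at this
    rw [smul_dotProduct, dotProduct_comm, this, smul_zero]

theorem meas_inv' (i j : Fin n) : Measurable fun A : MM n => (Matrix.of A)⁻¹ i j := by
  have h : ∀ A : MM n, (Matrix.of A)⁻¹ i j = ((Matrix.of A).det)⁻¹ * (Matrix.of A).adjugate i j := by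
    intro A
    rw [inv_def, Matrix.smul_apply, Ring.inverse_eq_inv', smul_eq_mul]
  simp only [h]
  have c2 : Continuous fun A : MM n => (Matrix.of A).adjugate i j := (continuous_of.matrix_adjugate).matrix_elem i j
  exact continuous_det_of.measurable.inv.mul c2.measurable

theorem meas_qinv : Measurable fun p : (Fin n → ℝ) × MM n => qn ((Matrix.of p.2)⁻¹ *ᵥ p.1) := by
  unfold qn
  simp only [mulVec, dotProduct]
  apply Finset.measurable_sum
  intro i _
  apply Measurable.pow_const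
  apply Finset.measurable_sum
  intro j _
  apply Measurable.mul
  · exact (meas_inv' i j).comp measurable_snd
  · fun_prop

/-- the kernel -/
noncomputable def Ek (c : ℝ) (g : Fin n → ℝ) (A : MM n) : ℝ≥0∞ :=
  ENNReal.ofReal (Real.exp (-(c * qn ((Matrix.of A)⁻¹ *ᵥ g)) / 2))

theorem meas_Ek (c : ℝ) : Measurable fun p : (Fin n → ℝ) × MM n => Ek c p.1 p.2 := by
  apply ENNReal.measurable_ofReal.comp
  apply Real.measurable_exp.comp
  exact ((meas_qinv.const_mul c).neg).div_const 2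

theorem meas_Ek2 (c : ℝ) (g : Fin n → ℝ) : Measurable fun A : MM n => Ek c g A := by
  have h1 : Measurable (fun A : MM n => ((g, A) : (Fin n → ℝ) × MM n)) := measurable_const.prodMk measurable_id
  have h2 := (meas_Ek c).comp h1
  simp only [Function.comp_def] at h2
  exact h2

theorem lint_gw_sub (B : MM n) : ∫⁻ A : MM n, gw (A - B) = z1 ^ (n * n) := by
  rw [lintegral_sub_right_eq_self (fun A : MM n => gw A) B]
  exact lint_gw n

theorem meas_gw_sub (B : MM n) : Measurable fun A : MM n => gw (A - B) := measurable_gw.comp (measurable_id.sub_const B)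

theorem col_lemma {m : ℕ} (B : MM (m + 1)) (a : ℝ) (ha : 0 ≤ a) :
    ∫⁻ A : MM (m + 1), ENNReal.ofReal (Real.exp (-a)) * gw (A - B)
      ≤ ∫⁻ A : MM (m + 1), gw (A - B) * Ek (a ^ 2) (Pi.single 0 1) A := by
  classical
  rw [volume_pi]
  apply lintegral_le_of_lmarginal_le {0}
  · exact (meas_gw_sub B).const_mul _
  · exact (meas_gw_sub B).mul (meas_Ek2 _ _)
  · rw [lmarginal_singleton, lmarginal_singleton]
    intro A
    simp only
    obtain ⟨ν, hν1, hν2⟩ := exists_normal A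
    set P : ℝ≥0∞ := ∏ j : Fin m, gv (A j.succ - B j.succ) with hP
    have e1 : ∀ x : Fin (m + 1) → ℝ, gw (Function.update A 0 x - B) = gv (x - B 0) * P := by
      intro x
      rw [gw_prod, Fin.prod_univ_succ]
      simp only [Pi.sub_apply, Function.update_self, Function.update_of_ne (Fin.succ_ne_zero _)]
      rfl
    have e2 : ∀ x : Fin (m + 1) → ℝ, ENNReal.ofReal (hh a (ν ⬝ᵥ x)) ≤ Ek (a ^ 2) (Pi.single 0 1) (Function.update A 0 x) := by
      intro x
      have h := col_bound (Function.update A 0 x) ν hν1 (by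
        intro j
        rw [Function.update_of_ne (Fin.succ_ne_zero j)]
        exact hν2 j) a
      rw [Function.update_self] at h
      exact ENNReal.ofReal_le_ofReal h
    simp only [e1]
    have hm1 : Measurable fun x : Fin (m + 1) → ℝ => gv (x - B 0) := measurable_gv.comp (measurable_id.sub_const _)
    calc ∫⁻ x : Fin (m + 1) → ℝ, ENNReal.ofReal (Real.exp (-a)) * (gv (x - B 0) * P)
        = (ENNReal.ofReal (Real.exp (-a)) * z1 ^ (m + 1)) * P := by
          rw [lintegral_const_mul _ (hm1.mul_const _), lintegral_mul_const _ hm1,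
            lintegral_sub_right_eq_self (fun x : Fin (m + 1) → ℝ => gv x) (B 0), lint_gv, mul_assoc]
      _ ≤ (∫⁻ x : Fin (m + 1) → ℝ, gv (x - B 0) * ENNReal.ofReal (hh a (ν ⬝ᵥ x))) * P := by
          gcongr
          exact row_int m (B 0) ν hν1 a ha
      _ ≤ ∫⁻ x : Fin (m + 1) → ℝ, (gv (x - B 0) * ENNReal.ofReal (hh a (ν ⬝ᵥ x))) * P := lintegral_mul_const_le _ _
      _ ≤ _ := by
          apply lintegral_mono
          intro x
          simp only
          rw [mul_right_comm]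
          gcongr
          exact e2 x

theorem exists_rot2 {m : ℕ} (g : Fin (m + 1) → ℝ) :
    ∃ O : Matrix (Fin (m + 1)) (Fin (m + 1)) ℝ, Oᵀ * O = 1 ∧ O *ᵥ g = Real.sqrt (qn g) • Pi.single 0 1 := by
  by_cases hg : g = 0
  · refine ⟨1, by simp, ?_⟩
    subst hg
    have : qn (0 : Fin (m + 1) → ℝ) = 0 := by simp [qn]
    rw [this]
    simp
  · have hp := qn_pos hg
    have hs := Real.sqrt_pos.2 hp
    obtain ⟨O, h1, h2⟩ := exists_rot ((Real.sqrt (qn g))⁻¹ • g) (by
      rw [qn_smul, inv_pow, Real.sq_sqrt hp.le]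
      field_simp)
    refine ⟨O, h1, ?_⟩
    rw [← h2, mulVec_smul, smul_smul, mul_inv_cancel₀ hs.ne', one_smul]

theorem vec_bound {m : ℕ} (B : MM (m + 1)) (g : Fin (m + 1) → ℝ) (t : ℝ) (ht : 0 ≤ t) :
    ENNReal.ofReal (Real.exp (-(t * Real.sqrt (qn g)))) * z1 ^ ((m + 1) * (m + 1))
      ≤ ∫⁻ A : MM (m + 1), gw (A - B) * Ek (t ^ 2) g A := by
  obtain ⟨O, h1, h2⟩ := exists_rot2 g
  have h3 : O * Oᵀ = 1 := mul_eq_one_comm.1 h1
  have hT : (Oᵀ)ᵀ * Oᵀ = 1 := by rw [transpose_transpose]; exact h3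
  have hm : Measurable fun A : MM (m + 1) => gw (A - B) * Ek (t ^ 2) g A := (meas_gw_sub B).mul (meas_Ek2 _ _)
  rw [← lint_orth hT _ hm]
  set a := t * Real.sqrt (qn g) with haDef
  have ha : 0 ≤ a := mul_nonneg ht (Real.sqrt_nonneg _)
  have e1 : ∀ A : MM (m + 1), gw (lm Oᵀ A - B) * Ek (t ^ 2) g (lm Oᵀ A)
      = gw (A - lm O B) * Ek (a ^ 2) (Pi.single 0 1) A := by
    intro A
    have f1 : lm Oᵀ A - B = lm Oᵀ (A - lm O B) := by
      rw [map_sub]
      congr 1
      apply of_inj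
      rw [of_lm, of_lm, ← Matrix.mul_assoc, h1, Matrix.one_mul]
    have f2 : gw (lm Oᵀ A - B) = gw (A - lm O B) := by
      rw [f1, gw_qq, gw_qq, qq_orth _ hT]
    have f3 : (Matrix.of (lm Oᵀ A))⁻¹ = (Matrix.of A)⁻¹ * O := by
      rw [of_lm, Matrix.mul_inv_rev, Matrix.inv_eq_left_inv h3]
    have f4 : Ek (t ^ 2) g (lm Oᵀ A) = Ek (a ^ 2) (Pi.single 0 1) A := by
      unfold Ek
      rw [f3, ← mulVec_mulVec, h2, mulVec_smul, qn_smul, ← mul_assoc, ← mul_pow]
    rw [f2, f4]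
  simp only [e1]
  have h5 := col_lemma (lm O B) a ha
  rw [lintegral_const_mul _ (meas_gw_sub _), lint_gw_sub] at h5
  exact h5

end Q298.Sv
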