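import Mathlib
import Pool.Agent.Q298.Sv.Rw

set_option autoImplicit false
set_option maxHeartbeats 4000000
open Matrix MeasureTheory Set ProbabilityTheory
open scoped ENNReal

namespace Q298.Sv

variable {n : ℕ}

/-- the determinant ratio as a Gaussian integral -/
theorem rho_int (A : MM n) (hA : (Matrix.of A).det ≠ 0) (c : ℝ) (hc : 0 ≤ c) :
    ∫⁻ g : Fin n → ℝ, gv g * Ek c g A = rho c (qq A) * z1 ^ n := by
  set X := Matrix.of A with hX
  have hu : IsUnit X.det := isUnit_iff_ne_zero.2 hA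
  set M : Matrix (Fin n) (Fin n) ℝ := 1 + c • ((X⁻¹)ᵀ * X⁻¹) with hM
  have hps : ((X⁻¹)ᵀ * X⁻¹).PosSemidef := by
    have := posSemidef_conjTranspose_mul_self (X⁻¹)
    rwa [conjTranspose_eq_transpose_of_trivial] at this
  have hMp : M.PosDef := PosDef.one.add_posSemidef (hps.smul hc)
  obtain ⟨S, hS, hMS⟩ := pd_root hMp
  have e1 : ∀ g : Fin n → ℝ, gv g * Ek c g A = gv (S *ᵥ g) := by
    intro g
    have f1 : qn (S *ᵥ g) = qn g + c * qn (X⁻¹ *ᵥ g) := by
      rw [qn_dot, dot_gram, ← hMS, hM, add_mulVec, one_mulVec, smul_mulVec, dotProduct_add, dotProduct_smul, ← dot_gram,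
        ← qn_dot, ← qn_dot, smul_eq_mul]
    unfold Ek
    rw [gv_qn, gv_qn, f1, ← ENNReal.ofReal_mul (Real.exp_pos _).le, ← Real.exp_add, ← hX]
    congr 2
    ring
  simp only [e1]
  rw [lint_vec S hS _ measurable_gv, lint_gv]
  congr 1
  unfold rho
  congr 1
  -- determinants
  have f2 : Xᵀ * M * X = Xᵀ * X + c • (1 : Matrix (Fin n) (Fin n) ℝ) := by
    have hXt : IsUnit Xᵀ.det := by rw [det_transpose]; exact hu
    rw [hM, Matrix.mul_add, Matrix.add_mul, Matrix.mul_one, Matrix.mul_smul, Matrix.smul_mul, transpose_nonsing_inv]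
    congr 2
    rw [← Matrix.mul_assoc Xᵀ, Matrix.mul_nonsing_inv _ hXt, Matrix.one_mul, Matrix.nonsing_inv_mul _ hu]
  have f3 : rr (qq A + sh n c) = |X.det| * |S.det| := by
    have : toM (qq A + sh n c) = (S * X)ᵀ * (S * X) := by
      rw [toM_add, toM_sh, toM_qq, ← hX, ← f2, hMS, transpose_mul]
      simp only [Matrix.mul_assoc]
    rw [rr_root this, det_mul, abs_mul, mul_comm]
  have f4 : rr (qq A) = |X.det| := rr_root (toM_qq A)
  rw [f3, f4]
  have h1 := abs_pos.2 hA
  have h2 := abs_pos.2 hS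
  field_simp

/-- second moment of the weight -/
theorem g1_second : ∫⁻ x, g1 x * ENNReal.ofReal (x ^ 2) = z1 := by
  have h1 : ∫⁻ x, ENNReal.ofReal (x ^ 2) ∂(gaussianReal 0 1) = 1 := by
    have hi : Integrable (fun x : ℝ => x ^ 2) (gaussianReal 0 1) := by
      have := (memLp_id_gaussianReal (μ := 0) (v := 1) 2).integrable_sq
      simpa using this
    rw [← ofReal_integral_eq_lintegral_ofReal hi (Filter.Eventually.of_forall fun x => sq_nonneg x)]
    have h2 := variance_id_gaussianReal (μ := 0) (v := 1)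
    rw [variance_eq_sub (memLp_id_gaussianReal 2)] at h2
    simp only [id_eq, Pi.pow_apply, integral_id_gaussianReal, NNReal.coe_one] at h2
    have h3 : ∫ x, x ^ 2 ∂(gaussianReal 0 1) = 1 := by linarith
    rw [h3, ENNReal.ofReal_one]
  have hm : Measurable fun x : ℝ => ENNReal.ofReal (x ^ 2) := ENNReal.measurable_ofReal.comp (measurable_id.pow_const 2)
  rw [gauss_eq, lintegral_withDensity_eq_lintegral_mul _ (measurable_g1.const_mul _) hm] at h1
  have h4 : ∫⁻ x, ((fun x => c1 * g1 x) * fun x => ENNReal.ofReal (x ^ 2)) x = c1 * ∫⁻ x, g1 x * ENNReal.ofReal (x ^ 2) := by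
    have hm5 : Measurable fun x : ℝ => g1 x * ENNReal.ofReal (x ^ 2) := measurable_g1.mul hm
    rw [← lintegral_const_mul _ hm5]
    apply lintegral_congr
    intro x
    simp only [Pi.mul_apply]
    ring
  rw [h4, ← c1_z1] at h1
  exact (ENNReal.mul_right_inj c1_ne_zero c1_ne_top).1 h1

theorem gv_second (n : ℕ) : ∫⁻ x : Fin n → ℝ, gv x * ENNReal.ofReal (qn x) = n * z1 ^ n := by
  have e1 : ∀ x : Fin n → ℝ, gv x * ENNReal.ofReal (qn x) = ∑ i, gv x * ENNReal.ofReal (x i ^ 2) := by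
    intro x
    unfold qn
    rw [ENNReal.ofReal_sum_of_nonneg (fun i _ => sq_nonneg _), Finset.mul_sum]
  simp only [e1]
  have hm : ∀ i : Fin n, Measurable fun x : Fin n → ℝ => ENNReal.ofReal (x i ^ 2) := fun i =>
    ENNReal.measurable_ofReal.comp ((measurable_pi_apply i).pow_const 2)
  have hm' : ∀ i : Fin n, Measurable fun x : Fin n → ℝ => gv x * ENNReal.ofReal (x i ^ 2) := fun i => measurable_gv.mul (hm i)
  rw [lintegral_finsetSum _ (fun i _ => hm' i)]
  have e2 : ∀ i : Fin n, ∫⁻ x : Fin n → ℝ, gv x * ENNReal.ofReal (x i ^ 2) = z1 ^ n := by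
    intro i
    set F : Fin n → ℝ → ℝ≥0∞ := fun j s => if j = i then g1 s * ENNReal.ofReal (s ^ 2) else g1 s with hF
    have hFm : ∀ j, Measurable (F j) := by
      intro j
      simp only [hF]
      by_cases hj : j = i
      · simp only [hj, if_true]
        exact measurable_g1.mul (ENNReal.measurable_ofReal.comp (measurable_id.pow_const 2))
      · simp only [hj, if_false]
        exact measurable_g1
    have e3 : ∀ x : Fin n → ℝ, gv x * ENNReal.ofReal (x i ^ 2) = ∏ j, F j (x j) := by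
      intro x
      rw [gv_prod, ← Finset.mul_prod_erase Finset.univ _ (Finset.mem_univ i),
        ← Finset.mul_prod_erase Finset.univ (fun j => F j (x j)) (Finset.mem_univ i)]
      have : ∏ j ∈ Finset.univ.erase i, F j (x j) = ∏ j ∈ Finset.univ.erase i, g1 (x j) := by
        apply Finset.prod_congr rfl
        intro j hj
        simp only [hF, if_neg (Finset.ne_of_mem_erase hj)]
      rw [this]
      simp only [hF, if_true]
      ring
    simp only [e3]
    rw [volume_pi, lintegral_pi_prod (fun _ : Fin n => (volume : Measure ℝ)) F hFm]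
    have e4 : ∀ j, ∫⁻ x, F j x = z1 := by
      intro j
      simp only [hF]
      by_cases hj : j = i
      · simp only [hj, if_true]
        exact g1_second
      · simp only [hj, if_false]
        rfl
    rw [Finset.prod_congr rfl (fun j _ => e4 j), Finset.prod_const, Finset.card_univ, Fintype.card_fin]
  rw [Finset.sum_congr rfl (fun i _ => e2 i), Finset.sum_const, Finset.card_univ, Fintype.card_fin, nsmul_eq_mul]

theorem tangent (m : ℕ) (t : ℝ) (ht : 0 ≤ t) :
    ENNReal.ofReal (Real.exp (-(t * Real.sqrt ((m + 1 : ℕ) : ℝ)))) * z1 ^ (m + 1)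
      ≤ ∫⁻ g : Fin (m + 1) → ℝ, gv g * ENNReal.ofReal (Real.exp (-(t * Real.sqrt (qn g)))) := by
  set N : ℝ := ((m + 1 : ℕ) : ℝ) with hN
  have hNp : 0 < N := by rw [hN]; positivity
  set s := Real.sqrt N with hs
  have hsp : 0 < s := Real.sqrt_pos.2 hNp
  have hs2 : s ^ 2 = N := Real.sq_sqrt hNp.le
  set d := Real.exp (-(t * s)) with hd
  have hdp : 0 < d := Real.exp_pos _
  set k := d * t / (2 * s) with hk
  have hkp : 0 ≤ k := by positivity
  have hpt : ∀ g : Fin (m + 1) → ℝ, d + k * N ≤ Real.exp (-(t * Real.sqrt (qn g))) + k * qn g := by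
    intro g
    set y := Real.sqrt (qn g) with hy
    have hy2 : y ^ 2 = qn g := Real.sq_sqrt (qn_nonneg g)
    have h1 : d * (1 - t * (y - s)) ≤ Real.exp (-(t * y)) := by
      have h2 : Real.exp (-(t * y)) = d * Real.exp (-(t * (y - s))) := by
        rw [hd, ← Real.exp_add]
        congr 1
        ring
      rw [h2]
      apply mul_le_mul_of_nonneg_left _ hdp.le
      have := Real.add_one_le_exp (-(t * (y - s)))
      linarith
    have h3 : y - s ≤ (y ^ 2 - s ^ 2) / (2 * s) := by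
      rw [le_div_iff₀ (by positivity)]
      nlinarith [sq_nonneg (y - s)]
    have h4 : d * (t * (y - s)) ≤ k * (y ^ 2 - s ^ 2) := by
      have h5 : k * (y ^ 2 - s ^ 2) = d * (t * ((y ^ 2 - s ^ 2) / (2 * s))) := by
        rw [hk]; ring
      rw [h5]
      gcongr
    rw [← hy2, ← hs2]
    nlinarith
  have hm1 : Measurable fun g : Fin (m + 1) → ℝ => gv g * ENNReal.ofReal (Real.exp (-(t * Real.sqrt (qn g)))) := by
    have : Continuous fun g : Fin (m + 1) → ℝ => Real.exp (-(t * Real.sqrt (qn g))) := by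
      have := continuous_qn (n := m + 1)
      fun_prop
    exact measurable_gv.mul (ENNReal.measurable_ofReal.comp this.measurable)
  have hm2 : Measurable fun g : Fin (m + 1) → ℝ => gv g * ENNReal.ofReal (qn g) :=
    measurable_gv.mul (ENNReal.measurable_ofReal.comp continuous_qn.measurable)
  have hint : ENNReal.ofReal d * z1 ^ (m + 1) + ENNReal.ofReal k * ((m + 1 : ℕ) * z1 ^ (m + 1))
      ≤ (∫⁻ g : Fin (m + 1) → ℝ, gv g * ENNReal.ofReal (Real.exp (-(t * Real.sqrt (qn g)))))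
        + ENNReal.ofReal k * ((m + 1 : ℕ) * z1 ^ (m + 1)) := by
    calc ENNReal.ofReal d * z1 ^ (m + 1) + ENNReal.ofReal k * ((m + 1 : ℕ) * z1 ^ (m + 1))
        = ENNReal.ofReal (d + k * N) * z1 ^ (m + 1) := by
          rw [ENNReal.ofReal_add hdp.le (by positivity), ENNReal.ofReal_mul hkp, hN, ENNReal.ofReal_natCast]
          ring
      _ = ∫⁻ g : Fin (m + 1) → ℝ, ENNReal.ofReal (d + k * N) * gv g := by
          rw [lintegral_const_mul _ measurable_gv, lint_gv]
      _ ≤ ∫⁻ g : Fin (m + 1) → ℝ, (gv g * ENNReal.ofReal (Real.exp (-(t * Real.sqrt (qn g))))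
            + ENNReal.ofReal k * (gv g * ENNReal.ofReal (qn g))) := by
          apply lintegral_mono
          intro g
          simp only
          calc ENNReal.ofReal (d + k * N) * gv g ≤ ENNReal.ofReal (Real.exp (-(t * Real.sqrt (qn g))) + k * qn g) * gv g :=
                mul_le_mul_left (ENNReal.ofReal_le_ofReal (hpt g)) _
            _ = _ := by
                rw [ENNReal.ofReal_add (Real.exp_pos _).le (mul_nonneg hkp (qn_nonneg g)), ENNReal.ofReal_mul hkp]
                ring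
      _ = _ := by
          rw [lintegral_add_left hm1, lintegral_const_mul _ hm2, gv_second]
  have hfin : ENNReal.ofReal k * ((m + 1 : ℕ) * z1 ^ (m + 1)) ≠ ⊤ :=
    ENNReal.mul_ne_top ENNReal.ofReal_ne_top (ENNReal.mul_ne_top (ENNReal.natCast_ne_top _) (ENNReal.pow_ne_top z1_ne_top))
  exact (ENNReal.add_le_add_iff_right hfin).1 hint

/-- linearization bound -/
theorem p3 {m : ℕ} (B : MM (m + 1)) (t : ℝ) (ht : 0 ≤ t) :
    ENNReal.ofReal (Real.exp (-(t * Real.sqrt ((m + 1 : ℕ) : ℝ)))) * z1 ^ ((m + 1) * (m + 1))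
      ≤ ∫⁻ A : MM (m + 1), gw (A - B) * rho (t ^ 2) (qq A) := by
  have hz0 : z1 ^ (m + 1) ≠ 0 := pow_ne_zero _ z1_ne_zero
  have hzt : z1 ^ (m + 1) ≠ ⊤ := ENNReal.pow_ne_top z1_ne_top
  have hmr : Measurable fun A : MM (m + 1) => gw (A - B) * rho (t ^ 2) (qq A) :=
    (meas_gw_sub B).mul ((measurable_rho _).comp continuous_qq.measurable)
  rw [← ENNReal.mul_le_mul_iff_left hz0 hzt, ← lintegral_mul_const _ hmr]
  have e1 : ∫⁻ A : MM (m + 1), gw (A - B) * rho (t ^ 2) (qq A) * z1 ^ (m + 1)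
      = ∫⁻ A : MM (m + 1), ∫⁻ g : Fin (m + 1) → ℝ, gw (A - B) * (gv g * Ek (t ^ 2) g A) := by
    apply lintegral_congr_ae
    filter_upwards [det_ae] with A hA
    have hm : Measurable fun g : Fin (m + 1) → ℝ => gv g * Ek (t ^ 2) g A := by
      have h1 : Measurable (fun g : Fin (m + 1) → ℝ => ((g, A) : (Fin (m + 1) → ℝ) × MM (m + 1))) :=
        measurable_id.prodMk measurable_const
      have h2 := (meas_Ek (n := m + 1) (t ^ 2)).comp h1
      simp only [Function.comp_def] at h2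
      exact measurable_gv.mul h2
    rw [lintegral_const_mul _ hm, rho_int A hA _ (sq_nonneg t), mul_assoc]
  rw [e1]
  have hm2 : Measurable fun p : MM (m + 1) × (Fin (m + 1) → ℝ) => gw (p.1 - B) * (gv p.2 * Ek (t ^ 2) p.2 p.1) := by
    have h2 := (meas_Ek (n := m + 1) (t ^ 2)).comp (measurable_swap (α := MM (m + 1)) (β := Fin (m + 1) → ℝ))
    simp only [Function.comp_def, Prod.fst_swap, Prod.snd_swap] at h2
    exact ((meas_gw_sub B).comp measurable_fst).mul ((measurable_gv.comp measurable_snd).mul h2)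
  rw [lintegral_lintegral_swap hm2.aemeasurable]
  have e2 : ∀ g : Fin (m + 1) → ℝ, ∫⁻ A : MM (m + 1), gw (A - B) * (gv g * Ek (t ^ 2) g A)
      = gv g * ∫⁻ A : MM (m + 1), gw (A - B) * Ek (t ^ 2) g A := by
    intro g
    have hm6 : Measurable fun A : MM (m + 1) => gw (A - B) * Ek (t ^ 2) g A := (meas_gw_sub B).mul (meas_Ek2 _ _)
    rw [← lintegral_const_mul _ hm6]
    apply lintegral_congr
    intro A
    ring
  simp only [e2]
  calc ENNReal.ofReal (Real.exp (-(t * Real.sqrt ((m + 1 : ℕ) : ℝ)))) * z1 ^ ((m + 1) * (m + 1)) * z1 ^ (m + 1)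
      = (ENNReal.ofReal (Real.exp (-(t * Real.sqrt ((m + 1 : ℕ) : ℝ)))) * z1 ^ (m + 1)) * z1 ^ ((m + 1) * (m + 1)) := by ring
    _ ≤ (∫⁻ g : Fin (m + 1) → ℝ, gv g * ENNReal.ofReal (Real.exp (-(t * Real.sqrt (qn g))))) * z1 ^ ((m + 1) * (m + 1)) := by
        gcongr
        exact tangent m t ht
    _ ≤ ∫⁻ g : Fin (m + 1) → ℝ, (gv g * ENNReal.ofReal (Real.exp (-(t * Real.sqrt (qn g))))) * z1 ^ ((m + 1) * (m + 1)) :=
        lintegral_mul_const_le _ _
    _ ≤ _ := by
        apply lintegral_mono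
        intro g
        simp only
        rw [mul_assoc]
        gcongr
        exact vec_bound B g t ht

/-- weights -/
theorem gw_shift (A B : MM n) : gw (A - B) = ENNReal.ofReal (Real.exp (-ip B B / 2)) * (gw A * ENNReal.ofReal (Real.exp (ip B A))) := by
  unfold gw
  rw [← ENNReal.ofReal_mul (Real.exp_pos _).le, ← ENNReal.ofReal_mul (Real.exp_pos _).le, ← Real.exp_add, ← Real.exp_add]
  congr 2
  have : ∑ i, ∑ j, (A - B) i j ^ 2 = (∑ i, ∑ j, A i j ^ 2) - 2 * ip B A + ip B B := by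
    unfold ip
    rw [Finset.mul_sum, ← Finset.sum_sub_distrib, ← Finset.sum_add_distrib]
    apply Finset.sum_congr rfl; intro i _
    rw [Finset.mul_sum, ← Finset.sum_sub_distrib, ← Finset.sum_add_distrib]
    apply Finset.sum_congr rfl; intro j _
    simp only [Pi.sub_apply]
    ring
  rw [this]
  ring

/-- **main inequality** -/
theorem main_ineq {m : ℕ} (B : MM (m + 1)) (t : ℝ) (ht : 0 ≤ t) :
    ENNReal.ofReal (Real.exp (-(((m + 1 : ℕ) : ℝ) * t ^ 2) / 2)) *
      (ENNReal.ofReal (Real.exp (-(t * Real.sqrt ((m + 1 : ℕ) : ℝ)))) * z1 ^ ((m + 1) * (m + 1)))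
      ≤ ∫⁻ A : MM (m + 1), gw (A - B) * dn (t ^ 2) (qq A) := by
  obtain ⟨ν, h1, h2, h3⟩ := exists_nu (m + 1)
  have hν : Inv ν := ⟨h1, h2, h3⟩
  set b : ℝ≥0∞ := ENNReal.ofReal (Real.exp (-ip B B / 2)) with hb
  have key : ∀ h : EE (m + 1) → ℝ≥0∞, Measurable h → ∫⁻ A : MM (m + 1), gw (A - B) * h (qq A)
      = b * ∫⁻ A : MM (m + 1), gw A * RR ν B A * h (qq A) := by
    intro h hm
    rw [← avg hν B h hm]
    rw [← lintegral_const_mul' _ _ ENNReal.ofReal_ne_top]
    apply lintegral_congr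
    intro A
    rw [gw_shift]
    ring
  have e1 := key _ (measurable_rho (t ^ 2))
  have e2 := key _ (measurable_dn (t ^ 2))
  have h4 := p3 B t ht
  rw [e1] at h4
  rw [e2]
  have h5 := comp_ineq hν B (t ^ 2) (sq_nonneg t)
  calc _ ≤ ENNReal.ofReal (Real.exp (-(((m + 1 : ℕ) : ℝ) * t ^ 2) / 2)) * (b * ∫⁻ A : MM (m + 1), gw A * RR ν B A * rho (t ^ 2) (qq A)) := by
        gcongr
    _ = b * (ENNReal.ofReal (Real.exp (-(((m + 1 : ℕ) : ℝ) * t ^ 2) / 2)) * ∫⁻ A : MM (m + 1), gw A * RR ν B A * rho (t ^ 2) (qq A)) := by ring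
    _ ≤ _ := by
        gcongr

end Q298.Sv
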