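import Mathlib
import Pool.Agent.Q298.Sv.Fi

set_option autoImplicit false
set_option maxHeartbeats 4000000
open Matrix MeasureTheory Set ProbabilityTheory
open scoped ENNReal

namespace Q298.Sv

variable {n : ℕ}

theorem exp_ineq (y : ℝ) (hy : 0 ≤ y) : 1 - y ≤ Real.exp (-(y ^ 2) / 2) * Real.exp (-y) := by
  set f : ℝ → ℝ := fun y => (1 - y) * Real.exp (y + y ^ 2 / 2) with hf
  have hd : ∀ y, HasDerivAt f (-(y ^ 2) * Real.exp (y + y ^ 2 / 2)) y := by
    intro y
    have h1 : HasDerivAt (fun y : ℝ => 1 - y) (-1) y := by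
      simpa using (hasDerivAt_id y).const_sub 1
    have h2 : HasDerivAt (fun y : ℝ => y + y ^ 2 / 2) (1 + y) y := by
      have := (hasDerivAt_id y).add ((hasDerivAt_pow 2 y).div_const 2)
      refine this.congr_deriv ?_
      norm_num
    have h3 := h1.mul h2.exp
    refine h3.congr_deriv ?_
    ring
  have hanti : Antitone f := by
    apply antitone_of_deriv_nonpos (fun y => (hd y).differentiableAt)
    intro y
    rw [(hd y).deriv]
    have := Real.exp_pos (y + y ^ 2 / 2)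
    nlinarith [mul_nonneg (sq_nonneg y) this.le]
  have h0 := hanti hy
  simp only [hf] at h0
  norm_num at h0
  have h4 : Real.exp (-(y ^ 2) / 2) * Real.exp (-y) = (Real.exp (y + y ^ 2 / 2))⁻¹ := by
    rw [← Real.exp_add, ← Real.exp_neg]
    congr 1
    ring
  rw [h4, ← one_div, le_div_iff₀ (Real.exp_pos _)]
  exact h0

theorem good_not_bad (Abar : Matrix (Fin n) (Fin n) ℝ) (σ x t : ℝ) (hσ : 0 < σ) (hx : 0 < x) (ht : t = 1 / (x * σ))
    (A G : MM n) (hA : Matrix.of A = σ⁻¹ • Abar + Matrix.of G) (hg : qq A - sh n (t ^ 2) ∈ PDs n) :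
    ¬ ∃ v : Fin n → ℝ, (∑ i, v i ^ 2 ≤ 1) ∧
            x ^ 2 ≤ ∑ i, (Matrix.mulVec (Abar + σ • Matrix.of G)⁻¹ v) i ^ 2 := by
  rintro ⟨v, hv1, hv2⟩
  set M := Matrix.of A with hM
  have e0 : Abar + σ • Matrix.of G = σ • M := by
    rw [hA, smul_add, smul_smul, mul_inv_cancel₀ hσ.ne', one_smul]
  have hP : (toM (qq A - sh n (t ^ 2))).PosDef := hg
  have e1 : toM (qq A - sh n (t ^ 2)) + t ^ 2 • (1 : Matrix (Fin n) (Fin n) ℝ) = Mᵀ * M := by
    rw [← toM_sh, ← toM_add, sub_add_cancel, toM_qq]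
  have hMP : (Mᵀ * M).PosDef := by
    rw [← e1]
    exact pd_add hP _ (sq_nonneg t)
  have hd : M.det ≠ 0 := by
    intro h
    have := PosDef.det_pos hMP
    rw [det_mul, h, mul_zero] at this
    exact lt_irrefl _ this
  have hsd : IsUnit (σ • M).det := by
    rw [det_smul]
    exact isUnit_iff_ne_zero.2 (mul_ne_zero (pow_ne_zero _ hσ.ne') hd)
  rw [e0] at hv2
  set w := (σ • M)⁻¹ *ᵥ v with hw
  have e2 : M *ᵥ (σ • w) = v := by
    rw [mulVec_smul, ← smul_mulVec, hw, mulVec_mulVec, Matrix.mul_nonsing_inv _ hsd, one_mulVec]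
  have hq : x ^ 2 ≤ qn w := hv2
  have hx2 : 0 < x ^ 2 := by positivity
  have hu : σ • w ≠ 0 := by
    intro h
    have : w = 0 := (smul_eq_zero.1 h).resolve_left hσ.ne'
    rw [this] at hq
    have h0 : qn (0 : Fin n → ℝ) = 0 := by simp [qn]
    linarith
  have h1 := hP.dotProduct_mulVec_pos hu
  rw [star_trivial] at h1
  have e3 : qn v = (σ • w) ⬝ᵥ (toM (qq A - sh n (t ^ 2)) *ᵥ (σ • w)) + t ^ 2 * qn (σ • w) := by
    rw [← e2, qn_dot, dot_gram, ← e1, add_mulVec, dotProduct_add, smul_mulVec, one_mulVec, dotProduct_smul, smul_eq_mul,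
      ← qn_dot]
  have hqv : qn v ≤ 1 := hv1
  rw [qn_smul] at e3
  have h2 : t ^ 2 * (σ ^ 2 * x ^ 2) = 1 := by
    rw [ht]
    field_simp
  have h3 : t ^ 2 * (σ ^ 2 * x ^ 2) ≤ t ^ 2 * (σ ^ 2 * qn w) := by gcongr
  linarith

theorem final (m : ℕ) (Abar : Matrix (Fin (m + 1)) (Fin (m + 1)) ℝ) (σ x : ℝ) (hσ : 0 < σ) (hx : 0 < x) :
      (Measure.pi (fun _ : Fin (m + 1) => Measure.pi (fun _ : Fin (m + 1) => gaussianReal 0 1)))
        {G : Fin (m + 1) → Fin (m + 1) → ℝ |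
          ∃ v : Fin (m + 1) → ℝ, (∑ i, v i ^ 2 ≤ 1) ∧
            x ^ 2 ≤ ∑ i, (Matrix.mulVec (Abar + σ • Matrix.of G)⁻¹ v) i ^ 2}
        ≤ ENNReal.ofReal (Real.sqrt ((m + 1 : ℕ) : ℝ) / (x * σ)) := by
  set γ := (Measure.pi (fun _ : Fin (m + 1) => Measure.pi (fun _ : Fin (m + 1) => gaussianReal 0 1))) with hγ
  set t : ℝ := 1 / (x * σ) with ht
  have htp : 0 < t := by positivity
  set B : MM (m + 1) := fun i j => σ⁻¹ * Abar i j with hB
  set Gd : Set (MM (m + 1)) := {G | qq (G + B) - sh (m + 1) (t ^ 2) ∈ PDs (m + 1)} with hGd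
  have hcont : Continuous fun G : MM (m + 1) => qq (G + B) - sh (m + 1) (t ^ 2) := by
    have := (continuous_qq (n := m + 1)).comp (continuous_id.add (continuous_const (y := B)))
    exact this.sub continuous_const
  have hGm : MeasurableSet Gd := hcont.measurable measurableSet_PDs
  have hsub : {G : Fin (m + 1) → Fin (m + 1) → ℝ |
          ∃ v : Fin (m + 1) → ℝ, (∑ i, v i ^ 2 ≤ 1) ∧
            x ^ 2 ≤ ∑ i, (Matrix.mulVec (Abar + σ • Matrix.of G)⁻¹ v) i ^ 2} ⊆ Gdᶜ := by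
    intro G hG hGG
    refine good_not_bad Abar σ x t hσ hx ht (G + B) G ?_ hGG hG
    ext i j
    simp only [of_apply, Pi.add_apply, Matrix.add_apply, Matrix.smul_apply, smul_eq_mul, hB]
    ring
  refine (measure_mono hsub).trans ?_
  rw [prob_compl_eq_one_sub hGm]
  set y : ℝ := Real.sqrt ((m + 1 : ℕ) : ℝ) / (x * σ) with hy
  have hy0 : 0 ≤ y := by positivity
  have hyt : y = t * Real.sqrt ((m + 1 : ℕ) : ℝ) := by
    rw [hy, ht]; ring
  have hlow : ENNReal.ofReal (Real.exp (-(y ^ 2) / 2) * Real.exp (-y)) ≤ γ Gd := by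
    have e1 : γ Gd = ∫⁻ G : MM (m + 1), c1 ^ ((m + 1) * (m + 1)) * (gw G * dn (t ^ 2) (qq (G + B))) := by
      rw [hγ, pi_pi_gauss, withDensity_apply _ hGm, ← lintegral_indicator hGm]
      apply lintegral_congr
      intro G
      by_cases hG : G ∈ Gd
      · rw [indicator_of_mem hG]
        have : dn (t ^ 2) (qq (G + B)) = 1 := by
          unfold dn
          rw [indicator_of_mem]
          exact hG
        rw [this, mul_one]
      · rw [indicator_of_notMem hG]
        have : dn (t ^ 2) (qq (G + B)) = 0 := by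
          unfold dn
          rw [indicator_of_notMem]
          exact hG
        rw [this, mul_zero, mul_zero]
    have e2 : ∫⁻ G : MM (m + 1), gw G * dn (t ^ 2) (qq (G + B)) = ∫⁻ A : MM (m + 1), gw (A - B) * dn (t ^ 2) (qq A) := by
      rw [← lintegral_add_right_eq_self (fun A : MM (m + 1) => gw (A - B) * dn (t ^ 2) (qq A)) B]
      apply lintegral_congr
      intro G
      rw [add_sub_cancel_right]
    rw [e1, lintegral_const_mul' _ _ (ENNReal.pow_ne_top c1_ne_top), e2]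
    have h3 := main_ineq B t htp.le
    calc ENNReal.ofReal (Real.exp (-(y ^ 2) / 2) * Real.exp (-y))
        = c1 ^ ((m + 1) * (m + 1)) * (ENNReal.ofReal (Real.exp (-(((m + 1 : ℕ) : ℝ) * t ^ 2) / 2)) *
      (ENNReal.ofReal (Real.exp (-(t * Real.sqrt ((m + 1 : ℕ) : ℝ)))) * z1 ^ ((m + 1) * (m + 1)))) := by
          have h4 : c1 ^ ((m + 1) * (m + 1)) * z1 ^ ((m + 1) * (m + 1)) = 1 := by
            rw [← mul_pow, c1_z1, one_pow]
          have h5 : y ^ 2 = ((m + 1 : ℕ) : ℝ) * t ^ 2 := by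
            rw [hyt, mul_pow, Real.sq_sqrt (Nat.cast_nonneg _)]
            ring
          rw [← hyt, ← h5, ENNReal.ofReal_mul (Real.exp_pos _).le]
          calc _ = ENNReal.ofReal (Real.exp (-y ^ 2 / 2)) * ENNReal.ofReal (Real.exp (-y)) * 1 := by rw [mul_one]
            _ = _ := by rw [← h4]; ring
      _ ≤ _ := by gcongr
  calc 1 - γ Gd ≤ 1 - ENNReal.ofReal (Real.exp (-(y ^ 2) / 2) * Real.exp (-y)) := tsub_le_tsub_left hlow _
    _ = ENNReal.ofReal (1 - Real.exp (-(y ^ 2) / 2) * Real.exp (-y)) := by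
        rw [ENNReal.ofReal_sub _ (by positivity), ENNReal.ofReal_one]
    _ ≤ ENNReal.ofReal y := by
        apply ENNReal.ofReal_le_ofReal
        have := exp_ineq y hy0
        linarith

end Q298.Sv
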